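import Pool.Agent.Y143.Divisors

/-!
# The weight-monodromy conjecture for the outer weights: definitions

`X` is a proper smooth rigid-analytic space of dimension `n` over a `p`-adic local field (with
residue field with `q` elements) with a strictly semistable formal model with projective special
fibre. The data `X : SemistableModel Ω Γ n q` and the classes of divisors on the strata are as in
`Pool.Agent.Y143`: `X.H a` is the cohomology of the stratum `Y^(a+1)` (the disjoint union of the
intersections of `a + 1` different components of the special fibre, over an algebraic closure),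
`X.V i` is the cohomology group `H^i` of the geometric generic fibre, with the monodromy operator
`X.N i`, the Frobenius `X.actV i X.frob` and the weight filtration `X.W i`.
-/

set_option autoImplicit false

namespace Pool.Agent.R942.WM

open Module Pool.Agent.Y143

universe u v

variable {Ω : Type u} [Field Ω] [CharZero Ω] {Γ : Type} {n q : ℕ}

/-- `N ^ k` induces an injective map from the graded piece of weight `i + k` of `H^i` to the one of
weight `i - k`. -/
def WeightInj (X : SemistableModel.{u, v} Ω Γ n q) (i k : ℕ) : Prop :=
  ∀ v ∈ X.W i ((i : ℤ) + k), (X.N i ^ k) v ∈ X.W i ((i : ℤ) - k - 1) →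
    v ∈ X.W i ((i : ℤ) + k - 1)

/-- `N ^ k` induces a surjective map from the graded piece of weight `i + k` of `H^i` to the one of
weight `i - k`. -/
def WeightSurj (X : SemistableModel.{u, v} Ω Γ n q) (i k : ℕ) : Prop :=
  ∀ y ∈ X.W i ((i : ℤ) - k), ∃ v ∈ X.W i ((i : ℤ) + k),
    y - (X.N i ^ k) v ∈ X.W i ((i : ℤ) - k - 1)

/-- The weight-monodromy conjecture for `H^i` and the graded pieces `gr^M_j` with `|j| ≥ r`: all
eigenvalues of the Frobenius on these graded pieces of the monodromy filtration `M` are `q`-Weil
numbers of weight `i + j`. Moreover `N ^ k` induces an isomorphism between the graded pieces of the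
weights `i + k` and `i - k` for all `k > r`, and if `r = 0`, then the whole `H^i` is mw pure. -/
structure PureBeyond (X : SemistableModel.{u, v} Ω Γ n q) (i r : ℕ) : Prop where
  iso : ∀ k : ℕ, r < k → WeightInj X i k ∧ WeightSurj X i k
  pure : ∀ M : ℤ → Submodule Ω (X.V i), IsMonodromyFiltration (X.N i) M →
    ∀ (j : ℤ) (α : Ω) (x : X.V i), (r : ℤ) ≤ |j| → x ∈ M j → x ∉ M (j - 1) →
      X.actV i X.frob x - α • x ∈ M (j - 1) → IsWeilNumber q (j + i) α
  full : r = 0 → IsMWPure q i (X.actV i X.frob) (X.N i)

/-- The Betti numbers `b_i` and `b_j` of the stratum `Y^(a+1)` are equal. -/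
def SameBetti (X : SemistableModel.{u, v} Ω Γ n q) (a : ℕ) (i j : ℤ) : Prop :=
  finrank Ω (X.gr a i) = finrank Ω (X.gr a j)

/-- The second cohomology group of the stratum `Y^(a+1)` is spanned by the classes of divisors. -/
def SpannedByDivisors {X : SemistableModel.{u, v} Ω Γ n q} (A : DivisorClasses X.toSpecialFibre)
    (a : ℕ) : Prop :=
  X.gr a 2 ≤ Submodule.span Ω (A.A1 a : Set (X.H a))

end Pool.Agent.R942.WM
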