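import Pool.Agent.R942.WM.Edge
import Pool.Agent.R942.WM.Defs

/-!
# The weight-monodromy conjecture for the outer weights
-/

set_option autoImplicit false

namespace Pool.Agent.R942.WM

open Module Pool.Agent.Y143

universe u v

variable {Ω : Type u} [Field Ω] [CharZero Ω] {Γ : Type} {n q : ℕ}

section Model

variable (X : SemistableModel.{u, v} Ω Γ n q)

/-- The eigenvalues on the graded pieces of the weight filtration. -/
lemma weil_W (m : ℕ) (w : ℤ) {α : Ω} {v : X.V m} (hv : v ∈ X.W m w) (hv' : v ∉ X.W m (w - 1))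
    (hα : X.actV m X.frob v - α • v ∈ X.W m (w - 1)) : IsWeilNumber q w α := by
  obtain ⟨x, hx⟩ := X.sp_left m _ v hv
  have h1 := (X.sp_mem m _ _ _ hx).2
  have h2 : x ∉ X.coboundaries (m - w) w := fun hc => hv' ((X.sp_ker m _ _ _ hx).2 hc)
  have h3 : (X.actV m X.frob v - α • v, X.actC (m - w) X.frob x - α • x) ∈ X.sp m w :=
    Submodule.sub_mem _ (X.sp_act m _ v x X.frob hx) (Submodule.smul_mem _ α hx)
  have h5 : X.actC (m - w) X.frob x - α • x ∈ X.coboundaries (m - w) w :=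
    (X.sp_ker m _ _ _ h3).1 hα
  obtain ⟨y, hy, hy0, hyα⟩ := exists_eigen (S := X.actC (m - w) X.frob)
    (X.bd_le_zc _ _) (fun x hx => X.actC_bd _ _ _ hx) h1 h2 h5
  exact X.weil_E₁ hy.1 hy0 hyα

lemma hbd (m : ℕ) (a : ℤ) : Bd X.diff X.tot a ((m : ℤ) - n) = X.coboundaries a (m - a) := by
  rw [X.bd_eq]
  congr 1
  ring

lemma hzc (m : ℕ) (a : ℤ) : Zc X.diff X.tot a ((m : ℤ) - n) = X.cocycles a (m - a) := by
  rw [X.zc_eq]
  congr 1
  ring

lemma weightInj_of {m k : ℕ} (h : NInj X.diff X.tot k ((m : ℤ) - n)) : WeightInj X m k := by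
  intro v hv hN
  obtain ⟨x, hx⟩ := X.sp_left m _ v hv
  have h1 := X.N_pow_sp hx k le_rfl
  have h2 := (X.sp_ker m _ _ _ h1).1 (X.W_cast (by ring) hN)
  have h3 := (X.sp_mem m _ _ _ hx).2
  rw [show (m : ℤ) - ((m : ℤ) + k - 2 * k) = k by ring,
    show (m : ℤ) + k - 2 * k = m - k by ring, ← hbd] at h2
  have h4 : x ∈ Zc X.diff X.tot (-k) ((m : ℤ) - n) := by
    rw [hzc]
    rwa [show (m : ℤ) - (m + k) = -k by ring, show (m : ℤ) + k = m - -k by ring] at h3
  have h5 := h ⟨h4, h2⟩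
  rw [hbd] at h5
  have h6 := (X.sp_ker m _ _ _ hx).2 (by
    rwa [show (m : ℤ) - (m + k) = -k by ring, show (m : ℤ) + k = m - -k by ring])
  exact X.W_cast (by ring) h6

lemma weightSurj_of {m k : ℕ} (h : NSurj X.diff X.tot k ((m : ℤ) - n)) : WeightSurj X m k := by
  intro v hv
  obtain ⟨y, hy⟩ := X.sp_left m _ v hv
  have h1 := (X.sp_mem m _ _ _ hy).2
  rw [show (m : ℤ) - (m - k) = k by ring, ← hzc] at h1
  obtain ⟨x, hx, b, hb, hxb⟩ := Submodule.mem_sup.1 (h h1)
  rw [hzc] at hx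
  obtain ⟨v', hv'⟩ := X.sp_right m ((m : ℤ) + k) x (by
    rwa [show (m : ℤ) - (m + k) = -k by ring, show (m : ℤ) + k = m - -k by ring])
  refine ⟨v', (X.sp_mem m _ _ _ hv').1, ?_⟩
  have h2 := X.N_pow_sp hv' k le_rfl
  have h3 : (v - (X.N m ^ k) v', b) ∈ X.sp m ((m : ℤ) - k) := by
    have h4 := Submodule.sub_mem _ hy
      (X.sp_cast (show (m : ℤ) + k - 2 * k = m - k by ring) h2)
    have h5 : b = y - x := by rw [← hxb]; abel
    rw [h5]
    exact h4
  exact (X.sp_ker m _ _ _ h3).2 (by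
    rw [show (m : ℤ) - (m - k) = k by ring, ← hbd]
    exact hb)

lemma N_W {m : ℕ} {w : ℤ} {v : X.V m} (hv : v ∈ X.W m w) : X.N m v ∈ X.W m (w - 2) := by
  obtain ⟨x, hx⟩ := X.sp_left m _ v hv
  exact (X.sp_mem m _ _ _ (X.sp_N m _ _ _ hx)).1

lemma N_pow_W {m : ℕ} {w : ℤ} {v : X.V m} (hv : v ∈ X.W m w) (k : ℕ) :
    (X.N m ^ k) v ∈ X.W m (w - 2 * k) := by
  induction k with
  | zero => simpa using hv
  | succ k ih =>
    rw [pow_succ', Module.End.mul_apply]
    exact X.W_cast (by push_cast; ring) (N_W X ih)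

lemma N_pow_M {m : ℕ} {M : ℤ → Submodule Ω (X.V m)} (hM : IsMonodromyFiltration (X.N m) M)
    {w : ℤ} {v : X.V m} (hv : v ∈ M w) (k : ℕ) : (X.N m ^ k) v ∈ M (w - 2 * k) := by
  induction k with
  | zero => simpa using hv
  | succ k ih =>
    rw [pow_succ', Module.End.mul_apply]
    have := hM.map _ _ ih
    rwa [show w - 2 * (k : ℤ) - 2 = w - 2 * ((k + 1 : ℕ) : ℤ) by push_cast; ring] at this

/-- The monodromy filtration agrees with the weight filtration in the outer degrees. -/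
lemma mono_eq {m r : ℕ} (h : ∀ k : ℕ, r < k → WeightInj X m k ∧ WeightSurj X m k)
    {M : ℤ → Submodule Ω (X.V m)} (hM : IsMonodromyFiltration (X.N m) M) (k : ℕ) (hk : r ≤ k) :
    M k = X.W m ((m : ℤ) + k) ∧ M (-k - 1) = X.W m ((m : ℤ) - k - 1) := by
  -- for large degrees
  obtain ⟨a1, h1⟩ := hM.bot
  obtain ⟨a2, h2⟩ := hM.top
  obtain ⟨w1, h3⟩ := X.W_bot m
  obtain ⟨w2, h4⟩ := X.W_top m
  have hlarge : ∃ K : ℕ, k ≤ K ∧ M K = X.W m ((m : ℤ) + K) ∧
      M (-K - 1) = X.W m ((m : ℤ) - K - 1) := by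
    refine ⟨k + a1.natAbs + a2.natAbs + w1.natAbs + w2.natAbs + m, by omega, ?_, ?_⟩
    · have e1 : M ((k + a1.natAbs + a2.natAbs + w1.natAbs + w2.natAbs + m : ℕ) : ℤ) = ⊤ := by
        rw [eq_top_iff, ← h2]
        apply hM.mono
        omega
      have e2 : X.W m ((m : ℤ) + (k + a1.natAbs + a2.natAbs + w1.natAbs + w2.natAbs + m : ℕ)) =
          ⊤ := by
        rw [eq_top_iff, ← h4]
        apply X.W_mono m
        omega
      rw [e1, e2]
    · have e1 : M (-((k + a1.natAbs + a2.natAbs + w1.natAbs + w2.natAbs + m : ℕ) : ℤ) - 1) =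
          ⊥ := by
        rw [eq_bot_iff, ← h1]
        apply hM.mono
        omega
      have e2 : X.W m ((m : ℤ) - (k + a1.natAbs + a2.natAbs + w1.natAbs + w2.natAbs + m : ℕ) - 1) =
          ⊥ := by
        rw [eq_bot_iff, ← h3]
        apply X.W_mono m
        omega
      rw [e1, e2]
  obtain ⟨K, hK, hPK⟩ := hlarge
  -- downward induction
  have key : ∀ d k : ℕ, r ≤ k → M ((k + d : ℕ) : ℤ) = X.W m ((m : ℤ) + ((k + d : ℕ) : ℤ)) ∧
      M (-((k + d : ℕ) : ℤ) - 1) = X.W m ((m : ℤ) - ((k + d : ℕ) : ℤ) - 1) →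
      M k = X.W m ((m : ℤ) + k) ∧ M (-k - 1) = X.W m ((m : ℤ) - k - 1) := by
    intro d
    induction d with
    | zero => intro k _ h; exact h
    | succ d ih =>
      intro k hk hP
      apply ih k hk
      set l := k + d with hl
      have hl1 : k + (d + 1) = l + 1 := by omega
      rw [hl1] at hP
      obtain ⟨hP1, hP2⟩ := hP
      obtain ⟨hi, hs⟩ := h (l + 1) (by omega)
      constructor
      · ext x
        constructor
        · intro hx
          have hx1 : x ∈ X.W m ((m : ℤ) + ((l + 1 : ℕ) : ℤ)) := by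
            rw [← hP1]
            exact hM.mono (by push_cast; omega) hx
          have hx2 := N_pow_M X hM hx (l + 1)
          rw [show (l : ℤ) - 2 * ((l + 1 : ℕ) : ℤ) = -((l + 1 : ℕ) : ℤ) - 1 by push_cast; ring,
            hP2] at hx2
          exact X.W_cast (by push_cast; ring) (hi x hx1 hx2)
        · intro hx
          have hx1 : x ∈ M ((l + 1 : ℕ) : ℤ) := by
            rw [hP1]
            exact X.W_mono m (by push_cast; omega) hx
          have hx2 := N_pow_W X hx (l + 1)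
          rw [show (m : ℤ) + l - 2 * ((l + 1 : ℕ) : ℤ) = m - ((l + 1 : ℕ) : ℤ) - 1 by
            push_cast; ring, ← hP2] at hx2
          have := hM.inj (l + 1) x hx1 hx2
          rwa [show ((l + 1 : ℕ) : ℤ) - 1 = l by push_cast; ring] at this
      · ext y
        constructor
        · intro hy
          rw [show -(l : ℤ) - 1 = -((l + 1 : ℕ) : ℤ) by push_cast; ring] at hy
          obtain ⟨x, hx, hxy⟩ := hM.surj (l + 1) y hy
          rw [hP2] at hxy
          rw [hP1] at hx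
          have h5 := N_pow_W X hx (l + 1)
          have h6 : y = (y - (X.N m ^ (l + 1)) x) + (X.N m ^ (l + 1)) x := by abel
          rw [h6]
          apply Submodule.add_mem
          · exact X.W_mono m (by push_cast; omega) hxy
          · exact X.W_cast (by push_cast; ring) h5
        · intro hy
          obtain ⟨x, hx, hxy⟩ := hs y (X.W_cast (by push_cast; ring) hy)
          rw [← hP2] at hxy
          rw [← hP1] at hx
          have h5 := N_pow_M X hM hx (l + 1)
          have h6 : y = (y - (X.N m ^ (l + 1)) x) + (X.N m ^ (l + 1)) x := by abel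
          rw [h6]
          apply Submodule.add_mem
          · exact hM.mono (by push_cast; omega) hxy
          · rwa [show ((l + 1 : ℕ) : ℤ) - 2 * ((l + 1 : ℕ) : ℤ) = -(l : ℤ) - 1 by
              push_cast; ring] at h5
  have := key (K - k) k hk
  rw [show k + (K - k) = K by omega] at this
  exact this hPK

lemma frob_N_pow {m r : ℕ} {v : X.V m} (hv : v ∈ X.W m ((m : ℤ) + r)) :
    (X.N m ^ r) (X.actV m X.frob v) - (q : Ω) ^ r • X.actV m X.frob ((X.N m ^ r) v) ∈
      X.W m ((m : ℤ) - r - 1) := by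
  obtain ⟨x, hx⟩ := X.sp_left m _ v hv
  have h1 := X.sp_act m _ v x X.frob hx
  have h2 := X.N_pow_sp h1 r le_rfl
  have h3 := X.sp_act m _ _ _ X.frob (X.N_pow_sp hx r le_rfl)
  have h4 : X.actC ((m : ℤ) - (m + r)) X.frob x =
      (q : Ω) ^ r • X.actC ((m : ℤ) - (m + r - 2 * r)) X.frob x := by
    have := X.actC_shift (r : ℤ) (r : ℤ) X.frob x
    rw [show (r : ℤ) - 2 * r = (m : ℤ) - (m + r) by ring] at this
    rw [this, show (m : ℤ) - (m + r - 2 * r) = r by ring, zpow_natCast, Units.val_pow_eq_pow_val,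
      X.cyc_frob]
  have h5 := Submodule.sub_mem _ h2 (Submodule.smul_mem _ ((q : Ω) ^ r) h3)
  have h6 : (((X.N m ^ r) (X.actV m X.frob v) - (q : Ω) ^ r • X.actV m X.frob ((X.N m ^ r) v) :
      X.V m), (0 : X.C)) ∈ X.sp m ((m : ℤ) + r - 2 * r) := by
    have e : (0 : X.C) = X.actC ((m : ℤ) - (m + r)) X.frob x -
      (q : Ω) ^ r • X.actC ((m : ℤ) - (m + r - 2 * r)) X.frob x := by rw [h4, sub_self]
    rw [e]
    exact h5
  exact X.W_cast (by ring) ((X.sp_ker m _ _ _ h6).2 (Submodule.zero_mem _))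

theorem pureBeyond_of {m r : ℕ} (hi : ∀ k : ℕ, r < k → NInj X.diff X.tot k ((m : ℤ) - n))
    (hs : ∀ k : ℕ, r < k → NSurj X.diff X.tot k ((m : ℤ) - n)) : PureBeyond X m r := by
  have hiso : ∀ k : ℕ, r < k → WeightInj X m k ∧ WeightSurj X m k := fun k hk =>
    ⟨weightInj_of X (hi k hk), weightSurj_of X (hs k hk)⟩
  refine ⟨hiso, fun M hM j α x hj hx hx' hα => ?_, fun hr => ?_⟩
  · have hkey := mono_eq X hiso hM
    -- the lower bound
    have hlow : ∀ y ∈ M (-(r : ℤ)), y ∈ X.W m ((m : ℤ) - r) := by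
      intro y hy
      obtain ⟨z, hz, hyz⟩ := hM.surj r y hy
      rw [(hkey r le_rfl).2] at hyz
      rw [(hkey r le_rfl).1] at hz
      have h5 := N_pow_W X hz r
      have h6 : y = (y - (X.N m ^ r) z) + (X.N m ^ r) z := by abel
      rw [h6]
      apply Submodule.add_mem
      · exact X.W_mono m (by omega) hyz
      · exact X.W_cast (by ring) h5
    -- the negative degrees
    have hneg : ∀ (k : ℕ) (β : Ω) (y : X.V m), r ≤ k → y ∈ M (-(k : ℤ)) → y ∉ M (-(k : ℤ) - 1) →
        X.actV m X.frob y - β • y ∈ M (-(k : ℤ) - 1) → IsWeilNumber q (-(k : ℤ) + m) β := by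
      intro k β y hk hy hy' hβ
      rw [(hkey k hk).2] at hy' hβ
      have hyW : y ∈ X.W m ((m : ℤ) - k) := by
        rcases Nat.eq_or_lt_of_le hk with h | h
        · subst h
          exact hlow y hy
        · have h1 := (hkey (k - 1) (by omega)).2
          rw [show -((k - 1 : ℕ) : ℤ) - 1 = -(k : ℤ) by omega,
            show (m : ℤ) - ((k - 1 : ℕ) : ℤ) - 1 = m - k by omega] at h1
          rwa [← h1]
      rw [show -(k : ℤ) + m = m - k by ring]
      exact weil_W X m _ hyW hy' hβ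
    obtain ⟨k, hk⟩ := j.eq_nat_or_neg
    rcases hk with rfl | rfl
    · rw [Nat.abs_cast] at hj
      have hk : r ≤ k := by exact_mod_cast hj
      have hxW : x ∈ X.W m ((m : ℤ) + k) := by rw [← (hkey k hk).1]; exact hx
      have h1 : (X.N m ^ k) x ∈ M (-(k : ℤ)) := by
        have := N_pow_M X hM hx k
        rwa [show (k : ℤ) - 2 * k = -k by ring] at this
      have h2 : (X.N m ^ k) x ∉ M (-(k : ℤ) - 1) := fun h => hx' (hM.inj k x hx h)
      have h3 : (X.N m ^ k) (X.actV m X.frob x - α • x) ∈ M (-(k : ℤ) - 1) := by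
        have := N_pow_M X hM hα k
        rwa [show (k : ℤ) - 1 - 2 * k = -k - 1 by ring] at this
      have h4 := frob_N_pow X hxW
      rw [← (hkey k hk).2] at h4
      have hqΩ : (q : Ω) ^ k ≠ 0 := pow_ne_zero _ (Nat.cast_ne_zero.2 X.q_ne)
      have h5 : X.actV m X.frob ((X.N m ^ k) x) - (((q : Ω) ^ k)⁻¹ * α) • (X.N m ^ k) x ∈
          M (-(k : ℤ) - 1) := by
        have h6 := Submodule.smul_mem _ (((q : Ω) ^ k)⁻¹) (Submodule.sub_mem _ h3 h4)
        have h7 : ((q : Ω) ^ k)⁻¹ • ((X.N m ^ k) (X.actV m X.frob x - α • x) -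
            ((X.N m ^ k) (X.actV m X.frob x) - (q : Ω) ^ k • X.actV m X.frob ((X.N m ^ k) x))) =
            X.actV m X.frob ((X.N m ^ k) x) - (((q : Ω) ^ k)⁻¹ * α) • (X.N m ^ k) x := by
          rw [map_sub, map_smul, smul_sub, smul_sub, smul_sub, smul_smul, smul_smul,
            inv_mul_cancel₀ hqΩ, one_smul]
          abel
        rwa [h7] at h6
      have h8 := hneg k _ _ hk h1 h2 h5
      have h9 := h8.twist X.q_ne k
      rw [zpow_natCast, ← mul_assoc, mul_inv_cancel₀ hqΩ, one_mul,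
        show -(k : ℤ) + m + 2 * k = k + m by ring] at h9
      exact h9
    · rw [abs_neg, Nat.abs_cast] at hj
      exact hneg k α x (by exact_mod_cast hj) hx hx' hα
  · subst hr
    exact X.isMWPure_of m (fun a ha => hi a (by omega)) (fun a ha => hs a (by omega))

end Model

/-! ### The strata -/

section Strata

variable {X : SpecialFibre.{u, v} Ω Γ n q}

lemma gr_neg {a : ℕ} {m : ℤ} (hm : m < 0) {x : X.H a} (hx : x ∈ X.gr a m) : x = 0 := by
  rw [X.gr_eq_bot a m (Or.inl hm)] at hx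
  exact hx

lemma nInj0 (A : DivisorClasses X) (a : ℕ) :
    NInj X.diff X.tot ((a + 1 : ℕ) : ℤ) (((a + 1 : ℕ) : ℤ) - n) := by
  refine nInj_of (a := a) (k := 0) (by omega) (fun u hu c hc h => ?_)
  have hc0 : c = 0 := gr_neg (by norm_num) hc
  subst hc0
  rw [map_zero, add_zero] at h
  refine ⟨0, Submodule.zero_mem _, ?_, rfl⟩
  rw [map_zero, add_zero]
  exact zero_inj A hu h

lemma nSurj0 (A : DivisorClasses X) {a : ℕ} (ha : a + 1 ≤ n) :
    NSurj X.diff X.tot ((a + 1 : ℕ) : ℤ) (((a + 1 : ℕ) : ℤ) - n) := by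
  refine nSurj_of (a := a) (k := 0) (fun s hs t ht h => ?_) (by omega)
  have ht0 : t = 0 := gr_neg (by norm_num) ht
  subst ht0
  rw [map_zero, add_zero] at h
  obtain ⟨u, hu, h1⟩ := zero_surj A ha hs h
  exact ⟨u, hu, 0, Submodule.zero_mem _, by rwa [map_zero, add_zero]⟩

lemma nInj1 (A : DivisorClasses X) (a : ℕ) :
    NInj X.diff X.tot ((a + 1 : ℕ) : ℤ) (((a + 2 : ℕ) : ℤ) - n) := by
  refine nInj_of (a := a) (k := 1) (by omega) (fun u hu c hc h => ?_)
  have hc0 : c = 0 := gr_neg (by norm_num) hc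
  subst hc0
  rw [map_zero, add_zero] at h
  refine ⟨0, Submodule.zero_mem _, ?_, rfl⟩
  rw [map_zero, add_zero]
  exact one_inj A hu h

lemma nSurj1 (A : DivisorClasses X) {a e : ℕ} (ha : n = a + 2 + e)
    (hinj : ∀ x ∈ X.gr a 3, (X.lef a ^ e) x = 0 → x = 0) :
    NSurj X.diff X.tot ((a + 1 : ℕ) : ℤ) (((a + 2 : ℕ) : ℤ) - n) := by
  refine nSurj_of (a := a) (k := 1) (fun s hs t ht h => ?_) (by omega)
  obtain ⟨u, hu, h1⟩ := one_surj A ha hinj hs
  exact ⟨u, hu, 0, Submodule.zero_mem _, by rwa [map_zero, add_zero]⟩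

lemma nInj2 (A : DivisorClasses X) {a e : ℕ} (ha : n = a + 3 + e)
    (hA : X.gr a 2 ≤ Submodule.span Ω (A.A1 a : Set (X.H a))) :
    NInj X.diff X.tot ((a + 1 : ℕ) : ℤ) (((a + 3 : ℕ) : ℤ) - n) := by
  refine nInj_of (a := a) (k := 2) (by omega) (fun u hu c hc h => ?_)
  have hc' : c ∈ X.gr (a + 2) 0 := by simpa using hc
  obtain ⟨c', hc1, hc2, hc3⟩ := two_inj A ha (hA hu) hc' (fun u' _ => by
    rw [← res_lef_pow, ← X.pair_gys, h, map_zero, LinearMap.zero_apply])
  exact ⟨c', by simpa using hc1, hc2, hc3⟩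

lemma nSurj2 (A : DivisorClasses X) {a e : ℕ} (ha : n = a + 3 + e)
    (hA : X.gr a 2 ≤ Submodule.span Ω (A.A1 a : Set (X.H a)))
    (hinj : ∀ x ∈ X.gr a 4, (X.lef a ^ e) x = 0 → x = 0) :
    NSurj X.diff X.tot ((a + 1 : ℕ) : ℤ) (((a + 3 : ℕ) : ℤ) - n) := by
  refine nSurj_of (a := a) (k := 2) (fun s hs t ht h => ?_) (by omega)
  have ht' : t ∈ X.gr (a + 3) 0 := by simpa using ht
  obtain ⟨u, hu, c, hc, h1⟩ := two_surj A ha hA hinj hs ht' h
  exact ⟨u, hu, c, by simpa using hc, h1⟩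

/-- Equality of Betti numbers and the hard Lefschetz theorem imply the injectivity of a power of the
Lefschetz operator. -/
lemma lef_inj_of_betti {a D i : ℕ} (hD : n = a + D) (hi : i + 1 ≤ D)
    (hb : finrank Ω (X.gr a ((i : ℤ) + 2)) = finrank Ω (X.gr a i)) :
    ∀ x ∈ X.gr a ((i : ℤ) + 2), (X.lef a ^ (D - i - 1)) x = 0 → x = 0 := by
  set s := D - i - 1 with hs
  set T := X.gr a ((i : ℤ) + 2 + 2 * s) with hT
  -- `L ^ (s + 1)` is an isomorphism from `gr i` to `T`
  have h1 : (X.gr a i).map (X.lef a ^ (s + 1)) = T := by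
    apply le_antisymm
    · rintro _ ⟨x, hx, rfl⟩
      have := lef_pow_gr (X := X) hx (s + 1)
      rwa [show (i : ℤ) + 2 * ((s + 1 : ℕ) : ℤ) = (i : ℤ) + 2 + 2 * s by push_cast; ring] at this
    · intro y hy
      obtain ⟨x, hx, hxy⟩ := X.lef_surj a (D - i) y (by
        rwa [show (n : ℤ) - a + ((D - i : ℕ) : ℤ) = (i : ℤ) + 2 + 2 * s by omega])
      refine ⟨x, ?_, ?_⟩
      · rwa [show (n : ℤ) - a - ((D - i : ℕ) : ℤ) = i by omega] at hx
      · rwa [show s + 1 = D - i by omega]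
  have h2 : finrank Ω T ≤ finrank Ω (X.gr a i) := by
    rw [← h1]
    exact Submodule.finrank_map_le _ _
  have h2' : finrank Ω (X.gr a i) ≤ finrank Ω T := by
    have h3 := finrank_map_add_ker (X.lef a ^ (s + 1)) (X.gr a i)
    rw [h1] at h3
    have h4 : (X.gr a i ⊓ LinearMap.ker (X.lef a ^ (s + 1)) : Submodule Ω (X.H a)) = ⊥ := by
      rw [eq_bot_iff]
      rintro x ⟨hx, hx'⟩
      apply X.lef_inj a (D - i) x
      · rwa [show (n : ℤ) - a - ((D - i : ℕ) : ℤ) = i by omega]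
      · rw [show D - i = s + 1 by omega]
        exact hx'
    rw [h4, finrank_bot] at h3
    omega
  -- `L ^ s` maps `gr (i + 2)` onto `T`
  have h5 : T ≤ (X.gr a ((i : ℤ) + 2)).map (X.lef a ^ s) := by
    rw [← h1]
    rintro _ ⟨x, hx, rfl⟩
    refine ⟨X.lef a x, X.lef_gr _ _ _ hx, ?_⟩
    rw [lef_pow_lef]
  have h6 := finrank_map_add_ker (X.lef a ^ s) (X.gr a ((i : ℤ) + 2))
  have h7 := Submodule.finrank_mono h5
  have h8 : (X.gr a ((i : ℤ) + 2) ⊓ LinearMap.ker (X.lef a ^ s) : Submodule Ω (X.H a)) = ⊥ := by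
    rw [← Submodule.finrank_eq_zero (R := Ω)]
    omega
  intro x hx hx'
  have : x ∈ (X.gr a ((i : ℤ) + 2) ⊓ LinearMap.ker (X.lef a ^ s) : Submodule Ω (X.H a)) :=
    ⟨hx, hx'⟩
  rw [h8] at this
  exact this

end Strata

/-! ### The main results -/

section Main

variable {X : SemistableModel.{u, v} Ω Γ n q}

lemma dual_index {m : ℕ} (hm : m ≤ n) : (((2 * n - m : ℕ) : ℤ)) - n = -((m : ℤ) - n) := by omega

/-- The columns beyond `m`, in the degrees `m` and `2 n - m`. -/
lemma beyond {m : ℕ} (hm : m ≤ n) {r : ℕ}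
    (hi : ∀ k : ℕ, r < k → k ≤ m → NInj X.diff X.tot k ((m : ℤ) - n))
    (hs : ∀ k : ℕ, r < k → k ≤ m → NSurj X.diff X.tot k ((m : ℤ) - n)) :
    PureBeyond X m r ∧ PureBeyond X (2 * n - m) r := by
  have hi' : ∀ k : ℕ, r < k → NInj X.diff X.tot k ((m : ℤ) - n) := by
    intro k hk
    by_cases h : k ≤ m
    · exact hi k hk h
    · exact nInj_triv (by omega)
  have hs' : ∀ k : ℕ, r < k → NSurj X.diff X.tot k ((m : ℤ) - n) := by
    intro k hk
    by_cases h : k ≤ m
    · exact hs k hk h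
    · exact nSurj_triv (by omega)
  refine ⟨pureBeyond_of X hi' hs', pureBeyond_of X (fun k hk => ?_) (fun k hk => ?_)⟩
  · rw [dual_index hm]
    exact nInj_of_nSurj (hs' k hk)
  · rw [dual_index hm]
    exact nSurj_of_nInj (hi' k hk)

theorem main_zero : PureBeyond X 0 0 ∧ PureBeyond X (2 * n) 0 := by
  have := beyond (X := X) (Nat.zero_le n) (r := 0) (fun k hk hk' => by omega)
    (fun k hk hk' => by omega)
  simpa using this

variable (A : DivisorClasses X.toSpecialFibre)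

include A in
lemma inj_top {m : ℕ} (hm : 1 ≤ m) : NInj X.diff X.tot m ((m : ℤ) - n) := by
  obtain ⟨a, rfl⟩ : ∃ a, m = a + 1 := ⟨m - 1, by omega⟩
  exact nInj0 A a

include A in
lemma surj_top {m : ℕ} (hm : 1 ≤ m) (hmn : m ≤ n) : NSurj X.diff X.tot m ((m : ℤ) - n) := by
  obtain ⟨a, rfl⟩ : ∃ a, m = a + 1 := ⟨m - 1, by omega⟩
  exact nSurj0 A hmn

include A in
theorem main_one {m : ℕ} (hm : 1 ≤ m) (hmn : m ≤ n) :
    PureBeyond X m (m - 1) ∧ PureBeyond X (2 * n - m) (m - 1) := by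
  apply beyond hmn
  · intro k hk hk'
    have : k = m := by omega
    subst this
    exact inj_top A hm
  · intro k hk hk'
    have : k = m := by omega
    subst this
    exact surj_top A hm hmn

include A in
lemma inj_two {m : ℕ} (hm : 2 ≤ m) : NInj X.diff X.tot ((m - 1 : ℕ) : ℤ) ((m : ℤ) - n) := by
  obtain ⟨a, rfl⟩ : ∃ a, m = a + 2 := ⟨m - 2, by omega⟩
  exact nInj1 A a

include A in
lemma surj_two {m : ℕ} (hm : 2 ≤ m) (hmn : m ≤ n) (hb : m = n ∨ SameBetti X (m - 2) 3 1) :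
    NSurj X.diff X.tot ((m - 1 : ℕ) : ℤ) ((m : ℤ) - n) := by
  obtain ⟨a, rfl⟩ : ∃ a, m = a + 2 := ⟨m - 2, by omega⟩
  obtain ⟨e, he⟩ : ∃ e, n = a + 2 + e := ⟨n - (a + 2), by omega⟩
  refine nSurj1 A he (fun x hx h => ?_)
  rcases hb with hb | hb
  · have : e = 0 := by omega
    subst this
    exact h
  · have h1 := lef_inj_of_betti (X := X.toSpecialFibre) (a := a) (D := e + 2) (i := 1) (by omega)
      (by omega) (by
        have h2 : SameBetti X a 3 1 := hb
        simpa [SameBetti] using h2) x (by simpa using hx)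
    apply h1
    rwa [show e + 2 - 1 - 1 = e by omega]

include A in
theorem main_two_inj {m : ℕ} (hm : 2 ≤ m) (hmn : m ≤ n) :
    WeightInj X m (m - 1) ∧ WeightSurj X (2 * n - m) (m - 1) := by
  refine ⟨weightInj_of X (inj_two A hm), weightSurj_of X ?_⟩
  rw [dual_index hmn]
  exact nSurj_of_nInj (inj_two A hm)

include A in
theorem main_two {m : ℕ} (hm : 2 ≤ m) (hmn : m ≤ n) (hb : m = n ∨ SameBetti X (m - 2) 3 1) :
    PureBeyond X m (m - 2) ∧ PureBeyond X (2 * n - m) (m - 2) := by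
  apply beyond hmn
  · intro k hk hk'
    rcases Nat.eq_or_lt_of_le hk' with h | h
    · subst h
      exact inj_top A (by omega)
    · have : k = m - 1 := by omega
      subst this
      exact inj_two A hm
  · intro k hk hk'
    rcases Nat.eq_or_lt_of_le hk' with h | h
    · subst h
      exact surj_top A (by omega) hmn
    · have : k = m - 1 := by omega
      subst this
      exact surj_two A hm hmn hb

lemma inj_three {m : ℕ} (hm : 3 ≤ m) (hmn : m ≤ n) (hA : SpannedByDivisors A (m - 3)) :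
    NInj X.diff X.tot ((m - 2 : ℕ) : ℤ) ((m : ℤ) - n) := by
  obtain ⟨a, rfl⟩ : ∃ a, m = a + 3 := ⟨m - 3, by omega⟩
  obtain ⟨e, he⟩ : ∃ e, n = a + 3 + e := ⟨n - (a + 3), by omega⟩
  exact nInj2 A he hA

lemma surj_three {m : ℕ} (hm : 3 ≤ m) (hmn : m ≤ n) (hA : SpannedByDivisors A (m - 3))
    (hb : m = n ∨ SameBetti X (m - 3) 4 2) :
    NSurj X.diff X.tot ((m - 2 : ℕ) : ℤ) ((m : ℤ) - n) := by
  obtain ⟨a, rfl⟩ : ∃ a, m = a + 3 := ⟨m - 3, by omega⟩
  obtain ⟨e, he⟩ : ∃ e, n = a + 3 + e := ⟨n - (a + 3), by omega⟩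
  refine nSurj2 A he hA (fun x hx h => ?_)
  rcases hb with hb | hb
  · have : e = 0 := by omega
    subst this
    exact h
  · have h1 := lef_inj_of_betti (X := X.toSpecialFibre) (a := a) (D := e + 3) (i := 2) (by omega)
      (by omega) (by
        have h2 : SameBetti X a 4 2 := hb
        simpa [SameBetti] using h2) x (by simpa using hx)
    apply h1
    rwa [show e + 3 - 2 - 1 = e by omega]

theorem main_three_inj {m : ℕ} (hm : 3 ≤ m) (hmn : m ≤ n) (hA : SpannedByDivisors A (m - 3)) :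
    WeightInj X m (m - 2) ∧ WeightSurj X (2 * n - m) (m - 2) := by
  refine ⟨weightInj_of X (inj_three A hm hmn hA), weightSurj_of X ?_⟩
  rw [dual_index hmn]
  exact nSurj_of_nInj (inj_three A hm hmn hA)

theorem main_three {m : ℕ} (hm : 3 ≤ m) (hmn : m ≤ n) (hA : SpannedByDivisors A (m - 3))
    (hb : m = n ∨ SameBetti X (m - 2) 3 1 ∧ SameBetti X (m - 3) 4 2) :
    PureBeyond X m (m - 3) ∧ PureBeyond X (2 * n - m) (m - 3) := by
  apply beyond hmn
  · intro k hk hk'
    rcases Nat.eq_or_lt_of_le hk' with h | h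
    · subst h
      exact inj_top A (by omega)
    · rcases Nat.eq_or_lt_of_le (Nat.le_sub_one_of_lt h) with h' | h'
      · subst h'
        exact inj_two A (by omega)
      · have : k = m - 2 := by omega
        subst this
        exact inj_three A hm hmn hA
  · intro k hk hk'
    rcases Nat.eq_or_lt_of_le hk' with h | h
    · subst h
      exact surj_top A (by omega) hmn
    · rcases Nat.eq_or_lt_of_le (Nat.le_sub_one_of_lt h) with h' | h'
      · subst h'
        exact surj_two A (by omega) hmn (hb.imp_right And.left)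
      · have : k = m - 2 := by omega
        subst this
        exact surj_three A hm hmn hA (hb.imp_right And.right)

end Main

end Pool.Agent.R942.WM
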