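import Pool.Agent.R942.WM.Str

/-!
# Positivity arguments on the strata: `H^0` and `H^1`
-/

set_option autoImplicit false

namespace Pool.Agent.R942.WM

open Module Pool.Agent.Y143

universe u v

variable {Ω : Type u} [Field Ω] [CharZero Ω] {Γ : Type} {n q : ℕ}

attribute [local instance] ratH towH

variable {X : SpecialFibre.{u, v} Ω Γ n q} {A : DivisorClasses X}

variable (X) in
/-- The rational part of the form `B (x, L ^ e y)`. -/
noncomputable def form (φ : Ω →ₗ[ℚ] ℚ) (a e : ℕ) : X.H a →ₗ[ℚ] X.H a →ₗ[ℚ] ℚ :=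
  LinearMap.mk₂ ℚ (fun x y => φ (X.pair a x ((X.lef a ^ e) y)))
    (fun x x' y => by rw [map_add, LinearMap.add_apply, map_add])
    (fun c x y => by
      rw [ratH_smul, map_smul, LinearMap.smul_apply, smul_eq_mul, ← map_smul, Algebra.smul_def]
      rfl)
    (fun x y y' => by rw [map_add, map_add, map_add])
    (fun c x y => by
      rw [ratH_smul, map_smul, map_smul, smul_eq_mul, ← map_smul, Algebra.smul_def]
      rfl)

lemma form_apply (φ : Ω →ₗ[ℚ] ℚ) (a e : ℕ) (x y : X.H a) :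
    form X φ a e x y = φ (X.pair a x ((X.lef a ^ e) y)) := rfl

lemma eq_zero_of_phi {φ : Ω →ₗ[ℚ] ℚ} (hφ : ∀ r : ℚ, φ (r : Ω) = r) {c : Ω}
    (hc : ∃ r : ℚ, c = r) (h : φ c = 0) : c = 0 := by
  obtain ⟨r, rfl⟩ := hc
  rw [hφ] at h
  rw [h, Rat.cast_zero]

/-- Rational classes of degree `0` which are linearly independent over the rational numbers are
linearly independent. -/
lemma comb_Q0 {a : ℕ} {s : Finset (Ix Ω)} {v : Ix Ω → X.H a} (hv : ∀ i, v i ∈ Q0 A a)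
    (h : comb s v = 0) : ∀ i ∈ s, v i = 0 := by
  intro i hi
  apply eq_zero_of_pos rfl (hv i)
  have h1 := comb_ind ((X.pair a).flip ((X.lef a ^ (n - a)) (v i))) (s := s) (v := v)
    (fun j _ => rat0 rfl (hv j) (hv i)) (by rw [h, map_zero]) i hi
  exact h1

lemma comb_zero {V : Type*} [AddCommGroup V] [Module Ω V] {s : Finset (Ix Ω)} {v : Ix Ω → V}
    (h : ∀ i ∈ s, v i = 0) : comb s v = 0 := by
  unfold comb
  apply Finset.sum_eq_zero
  intro i hi
  rw [h i hi, smul_zero]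

lemma comb_congr {V : Type*} [AddCommGroup V] [Module Ω V] {s : Finset (Ix Ω)} {v w : Ix Ω → V}
    (h : ∀ i ∈ s, v i = w i) : comb s v = comb s w := by
  unfold comb
  apply Finset.sum_congr rfl
  intro i hi
  rw [h i hi]

lemma comb_add {V : Type*} [AddCommGroup V] [Module Ω V] (s : Finset (Ix Ω)) (v w : Ix Ω → V) :
    comb s (fun i => v i + w i) = comb s v + comb s w := by
  unfold comb
  rw [← Finset.sum_add_distrib]
  exact Finset.sum_congr rfl fun i _ => smul_add _ _ _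

lemma comb_sub {V : Type*} [AddCommGroup V] [Module Ω V] (s : Finset (Ix Ω)) (v w : Ix Ω → V) :
    comb s (fun i => v i - w i) = comb s v - comb s w := by
  unfold comb
  rw [← Finset.sum_sub_distrib]
  exact Finset.sum_congr rfl fun i _ => smul_sub _ _ _

lemma comb_mem {V : Type*} [AddCommGroup V] [Module Ω V] {W : Submodule Ω V} {s : Finset (Ix Ω)}
    {v : Ix Ω → V} (h : ∀ i ∈ s, v i ∈ W) : comb s v ∈ W :=
  Submodule.sum_mem _ fun i hi => W.smul_mem _ (h i hi)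

/-! ### `H^0` -/

lemma zero_inj (A : DivisorClasses X) {a : ℕ} {y : X.H a} (hy : y ∈ X.gr a 0)
    (h : X.gys a (X.res a y) = 0) : X.res a y = 0 := by
  obtain ⟨s, v, hv, -, rfl⟩ := gr_zero_comb (A := A) hy
  rw [map_comb]
  rw [map_comb] at h
  apply comb_zero
  intro i hi
  apply eq_zero_of_pos rfl (res_Q0 (hv i))
  refine comb_ind ((X.pair (a + 1)).flip ((X.lef (a + 1) ^ (n - (a + 1))) (X.res a (v i))))
    (s := s) (v := fun j => X.res a (v j)) (fun j _ => rat0 rfl (res_Q0 (hv j)) (res_Q0 (hv i)))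
    ?_ i hi
  rw [LinearMap.flip_apply, ← res_lef_pow, ← X.pair_gys, h, map_zero, LinearMap.zero_apply]

lemma zero_surj_rat {a : ℕ} (ha : a + 1 ≤ n) {y : X.H (a + 1)} (hy : y ∈ Q0 A (a + 1))
    (h : X.res (a + 1) y = 0) : ∃ u ∈ Q0 A a, X.gys a (y - X.res a u) = 0 := by
  obtain ⟨φ, hφ⟩ := exists_retraction (Ω := Ω)
  obtain ⟨D, hD⟩ : ∃ D, n = a + 1 + D := ⟨n - (a + 1), by omega⟩
  have hD1 : n - (a + 1) = D := by omega
  let R : Submodule ℚ (X.H (a + 1)) := (Q0 A a).map ((X.res a).restrictScalars ℚ)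
  have hR : ∀ r ∈ R, (∀ r' ∈ R, form X φ (a + 1) D r r' = 0) → r = 0 := by
    rintro _ ⟨u, hu, rfl⟩ h'
    have h1 := h' _ ⟨u, hu, rfl⟩
    rw [form_apply] at h1
    exact eq_zero_of_pos hD1 (res_Q0 hu)
      (eq_zero_of_phi hφ (rat0 hD1 (res_Q0 hu) (res_Q0 hu)) h1)
  obtain ⟨_, ⟨u, hu, rfl⟩, h2⟩ := exists_proj (form X φ (a + 1) D) R hR y
  refine ⟨u, hu, ?_⟩
  have h2' : ∀ u' ∈ Q0 A a, X.pair (a + 1) (y - X.res a u)
      ((X.lef (a + 1) ^ D) (X.res a u')) = 0 := by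
    intro u' hu'
    exact eq_zero_of_phi hφ (rat0 hD1 (Submodule.sub_mem _ hy (res_Q0 hu)) (res_Q0 hu'))
      (h2 _ ⟨u', hu', rfl⟩)
  set x := y - X.res a u with hx
  have hxQ : x ∈ Q0 A (a + 1) := Submodule.sub_mem _ hy (res_Q0 hu)
  have hxr : X.res (a + 1) x = 0 := by rw [hx, map_sub, h, X.res_res, sub_zero]
  have hz : X.gys a x ∈ Q1 A a := gys_Q0 hxQ
  have h3 : ∀ u' ∈ Q0 A a, X.pair a ((X.lef a ^ D) (X.gys a x)) u' = 0 := by
    intro u' hu'
    rw [lef_pow_pair, X.pair_gys, res_lef_pow]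
    exact h2' u' hu'
  have h4 : (X.lef a ^ D) (X.gys a x) = 0 := by
    apply eq_zero_of_pair (m := 2 + 2 * D) (m' := 0) (by omega) (lef_pow_gr (Q1_gr hz) D)
    intro y hy
    exact pair_zero_of_Q0 (A := A) (X.pair a ((X.lef a ^ D) (X.gys a x))) h3 hy
  rcases Nat.eq_zero_or_pos D with hD0 | hD0
  · rw [hD0, pow_zero] at h4
    exact h4
  · obtain ⟨e, rfl⟩ : ∃ e, D = e + 1 := ⟨D - 1, by omega⟩
    refine eq_zero_of_hodge (e := e) (by omega) hz ?_ ?_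
    · rwa [show n - a - 1 = e + 1 by omega]
    · rw [X.pair_gys, res_lef_pow, res_gys', hxr, map_zero, neg_zero, map_zero, map_zero]

lemma zero_surj (A : DivisorClasses X) {a : ℕ} (ha : a + 1 ≤ n) {y : X.H (a + 1)}
    (hy : y ∈ X.gr (a + 1) 0)
    (h : X.res (a + 1) y = 0) : ∃ u ∈ X.gr a 0, X.gys a (y - X.res a u) = 0 := by
  obtain ⟨s, v, hv, -, rfl⟩ := gr_zero_comb (A := A) hy
  rw [map_comb] at h
  have h1 : ∀ i ∈ s, X.res (a + 1) (v i) = 0 :=
    comb_Q0 (A := A) (fun i => res_Q0 (hv i)) h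
  have h2 : ∀ i : Ix Ω, ∃ u : X.H a, i ∈ s → u ∈ Q0 A a ∧ X.gys a (v i - X.res a u) = 0 := by
    intro i
    by_cases hi : i ∈ s
    · obtain ⟨u, hu, hu'⟩ := zero_surj_rat ha (hv i) (h1 i hi)
      exact ⟨u, fun _ => ⟨hu, hu'⟩⟩
    · exact ⟨0, fun h => absurd h hi⟩
  choose u hu using h2
  refine ⟨comb s u, comb_mem fun i hi => Q0_gr (hu i hi).1, ?_⟩
  rw [map_comb, ← comb_sub, map_comb]
  exact comb_zero fun i hi => (hu i hi).2

/-! ### `H^1` -/

lemma one_inj (A : DivisorClasses X) {a : ℕ} {y : X.H a} (hy : y ∈ X.gr a 1)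
    (h : X.gys a (X.res a y) = 0) : X.res a y = 0 := by
  apply A.weil_one a y hy
  intro y' _
  rw [← res_lef_pow, ← X.pair_gys, h, map_zero, LinearMap.zero_apply]

lemma one_surj (A : DivisorClasses X) {a e : ℕ} (ha : n = a + 2 + e) {y : X.H (a + 1)}
    (hinj : ∀ x ∈ X.gr a 3, (X.lef a ^ e) x = 0 → x = 0) (hy : y ∈ X.gr (a + 1) 1) :
    ∃ u ∈ X.gr a 1, X.gys a (y - X.res a u) = 0 := by
  let b : X.H (a + 1) →ₗ[Ω] X.H (a + 1) →ₗ[Ω] Ω :=
    (X.pair (a + 1)).compl₂ (X.lef (a + 1) ^ e)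
  have hb : ∀ x y, b x y = X.pair (a + 1) x ((X.lef (a + 1) ^ e) y) := fun _ _ => rfl
  have he : n - a - 2 = e := by omega
  let R : Submodule Ω (X.H (a + 1)) := (X.gr a 1).map (X.res a)
  have hR : ∀ r ∈ R, (∀ r' ∈ R, b r r' = 0) → r = 0 := by
    rintro _ ⟨u, hu, rfl⟩ h'
    apply A.weil_one a u hu
    intro y hy
    rw [he]
    exact h' _ ⟨y, hy, rfl⟩
  obtain ⟨_, ⟨u, hu, rfl⟩, h2⟩ := exists_proj b R hR y
  refine ⟨u, hu, ?_⟩
  have hx1 : y - X.res a u ∈ X.gr (a + 1) 1 := Submodule.sub_mem _ hy (X.res_gr _ _ _ hu)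
  have hx3 : X.gys a (y - X.res a u) ∈ X.gr a 3 := X.gys_gr a 1 _ hx1
  apply hinj _ hx3
  apply eq_zero_of_pair (m := 3 + 2 * e) (m' := 1) (by omega) (lef_pow_gr hx3 e)
  intro y' hy'
  rw [lef_pow_pair, X.pair_gys, res_lef_pow]
  exact h2 _ ⟨y', hy', rfl⟩

end Pool.Agent.R942.WM
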