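import Pool.Agent.R942.WM.Core

/-!
# Positivity arguments on the strata: `H^2`
-/

set_option autoImplicit false

namespace Pool.Agent.R942.WM

open Module Pool.Agent.Y143

universe u v

variable {Ω : Type u} [Field Ω] [CharZero Ω] {Γ : Type} {n q : ℕ}

attribute [local instance] ratH towH

variable {X : SpecialFibre.{u, v} Ω Γ n q} {A : DivisorClasses X}

/-- The decomposition of a divisor class into a multiple of the hyperplane class and a primitive
class. -/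
lemma exists_theta (A : DivisorClasses X) {φ : Ω →ₗ[ℚ] ℚ} (hφ : ∀ r : ℚ, φ (r : Ω) = r) {b e : ℕ}
    (hb : n = b + 2 + e) : ∃ p : X.H b →ₗ[ℚ] X.H b, ∀ x ∈ Q1 A b,
      (∃ σ ∈ Q0 A b, p x = X.lef b σ) ∧ (X.lef b ^ (e + 1)) (x - p x) = 0 := by
  have he : n - b - 2 = e := by omega
  let R : Submodule ℚ (X.H b) := (Q0 A b).map ((X.lef b).restrictScalars ℚ)
  have hR : ∀ r ∈ R, (∀ r' ∈ R, form X φ b e r r' = 0) → r = 0 := by
    rintro _ ⟨σ, hσ, rfl⟩ h'
    have h1 := h' _ ⟨σ, hσ, rfl⟩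
    rw [form_apply] at h1
    have h2 := eq_zero_of_phi hφ (rat1 he (lef_Q0 hσ) (lef_Q0 hσ)) h1
    have h3 : σ = 0 := by
      apply eq_zero_of_pos (D := e + 2) (by omega) hσ
      have h4 : X.pair b (X.lef b σ) ((X.lef b ^ e) (X.lef b σ)) =
          X.pair b σ ((X.lef b ^ (e + 2)) σ) := by
        rw [X.lef_pair, lef_pow_lef, lef_lef_pow]
      rw [← h4]
      exact h2
    rw [h3]
    exact map_zero _
  obtain ⟨p, hp, hp'⟩ := exists_proj_lin (form X φ b e) R hR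
  refine ⟨p, fun x hx => ?_⟩
  obtain ⟨σ, hσ, hσ'⟩ := hp x
  have hσ'' : X.lef b σ = p x := hσ'
  refine ⟨⟨σ, hσ, hσ''.symm⟩, ?_⟩
  have hx0 : x - p x ∈ Q1 A b := Submodule.sub_mem _ hx (hσ'' ▸ lef_Q0 hσ)
  apply eq_zero_of_pair (m := 2 + 2 * ((e + 1 : ℕ) : ℤ)) (m' := 0) (by push_cast; omega)
    (lef_pow_gr (Q1_gr hx0) _)
  intro y hy
  refine pair_zero_of_Q0 (A := A) (X.pair b _) (fun τ hτ => ?_) hy
  rw [lef_pow_pair, ← lef_pow_lef]
  exact eq_zero_of_phi hφ (rat1 he hx0 (lef_Q0 hτ)) (hp' x _ ⟨τ, hτ, rfl⟩)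

/-- The modified form is positive. -/
lemma theta_pos {b e : ℕ} (hb : n = b + 2 + e) {x σ : X.H b} (hx : x ∈ Q1 A b) (hσ : σ ∈ Q0 A b)
    (h0 : (X.lef b ^ (e + 1)) (x - X.lef b σ) = 0) :
    ∃ r : ℚ, X.pair b ((2 : ℚ) • X.lef b σ - x) ((X.lef b ^ e) x) = r ∧ 0 ≤ r ∧
      (r = 0 → x = 0) := by
  have he : n - b - 2 = e := by omega
  set s := x - X.lef b σ with hs
  have hsQ : s ∈ Q1 A b := Submodule.sub_mem _ hx (lef_Q0 hσ)
  have hx' : x = X.lef b σ + s := by rw [hs]; abel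
  have h1 : X.pair b s ((X.lef b ^ e) (X.lef b σ)) = 0 := by
    rw [lef_pow_lef, ← lef_pow_pair, h0, map_zero, LinearMap.zero_apply]
  have h2 : X.pair b (X.lef b σ) ((X.lef b ^ e) s) = 0 := by
    rw [X.lef_pair, lef_lef_pow, h0, map_zero]
  have h3 : X.pair b ((2 : ℚ) • X.lef b σ - x) ((X.lef b ^ e) x) =
      X.pair b σ ((X.lef b ^ (e + 2)) σ) - X.pair b s ((X.lef b ^ e) s) := by
    have h4 : (2 : ℚ) • X.lef b σ - x = X.lef b σ - s := by
      rw [hx', two_smul]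
      abel
    rw [h4, hx', map_add, map_add, map_sub, LinearMap.sub_apply, LinearMap.sub_apply, h1, h2]
    have h5 : X.pair b (X.lef b σ) ((X.lef b ^ e) (X.lef b σ)) =
          X.pair b σ ((X.lef b ^ (e + 2)) σ) := by
      rw [X.lef_pair, lef_pow_lef, lef_lef_pow]
    rw [h5]
    ring
  obtain ⟨r1, hr1⟩ := rat0 (D := e + 2) (by omega) hσ hσ
  obtain ⟨r2, hr2⟩ := rat1 he hsQ hsQ
  have hr1' : 0 ≤ r1 ∧ (r1 = 0 → σ = 0) := by
    by_cases h : σ = 0
    · refine ⟨?_, fun _ => h⟩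
      rw [h, map_zero, LinearMap.zero_apply] at hr1
      have : r1 = 0 := by exact_mod_cast hr1.symm
      rw [this]
    · obtain ⟨r, hr, hr'⟩ := pos0Q (D := e + 2) (by omega) hσ h
      rw [hr1] at hr'
      have : r1 = r := by exact_mod_cast hr'
      rw [this]
      exact ⟨hr.le, fun h => absurd h hr.ne'⟩
  have hr2' : r2 ≤ 0 ∧ (r2 = 0 → s = 0) := by
    by_cases h : s = 0
    · refine ⟨?_, fun _ => h⟩
      rw [h, map_zero, LinearMap.zero_apply] at hr2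
      have : r2 = 0 := by exact_mod_cast hr2.symm
      rw [this]
    · obtain ⟨r, hr, hr'⟩ := hodgeQ he hsQ (by rwa [show n - b - 1 = e + 1 by omega]) h
      rw [hr2] at hr'
      have : r2 = r := by exact_mod_cast hr'
      rw [this]
      exact ⟨hr.le, fun h => absurd h hr.ne⟩
  refine ⟨r1 - r2, ?_, by linarith [hr1'.1, hr2'.1], fun h => ?_⟩
  · rw [h3, hr1, hr2]
    push_cast
    rfl
  · have h6 : r1 = 0 := by linarith [hr1'.1, hr2'.1]
    have h7 : r2 = 0 := by linarith [hr1'.1, hr2'.1]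
    rw [hx', hr1'.2 h6, hr2'.2 h7, map_zero, add_zero]

lemma two_inj_rat {a e : ℕ} (ha : n = a + 3 + e) {u : X.H a} {c : X.H (a + 2)}
    (hu : u ∈ Q1 A a) (hc : c ∈ Q0 A (a + 2))
    (hZ : ∀ u' ∈ Q1 A a, X.pair (a + 1) (X.res a u + X.gys (a + 1) c)
      ((X.lef (a + 1) ^ e) (X.res a u')) = 0) :
    ∃ c' ∈ Q0 A (a + 2), X.res a u + X.gys (a + 1) c = X.gys (a + 1) c' ∧
      X.res (a + 2) c = X.res (a + 2) c' := by
  obtain ⟨φ, hφ⟩ := exists_retraction (Ω := Ω)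
  obtain ⟨p, hp⟩ := exists_theta A hφ (b := a + 1) (e := e) (by omega)
  let θ : X.H (a + 1) →ₗ[ℚ] X.H (a + 1) := (2 : ℚ) • p - LinearMap.id
  have hθ : ∀ x, θ x = (2 : ℚ) • p x - x := fun _ => rfl
  let bb : (X.H (a + 1) × X.H (a + 3)) →ₗ[ℚ] (X.H (a + 1) × X.H (a + 3)) →ₗ[ℚ] ℚ :=
    (form X φ (a + 1) e).compl₁₂ (θ ∘ₗ LinearMap.fst ℚ _ _) (LinearMap.fst ℚ _ _) +
      (form X φ (a + 3) e).compl₁₂ (LinearMap.snd ℚ _ _) (LinearMap.snd ℚ _ _)
  have hbb : ∀ v w, bb v w = form X φ (a + 1) e (θ v.1) w.1 + form X φ (a + 3) e v.2 w.2 :=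
    fun _ _ => rfl
  let G : X.H (a + 2) →ₗ[ℚ] (X.H (a + 1) × X.H (a + 3)) :=
    LinearMap.prod ((X.gys (a + 1)).restrictScalars ℚ) ((X.res (a + 2)).restrictScalars ℚ)
  have hG : ∀ c, G c = (X.gys (a + 1) c, X.res (a + 2) c) := fun _ => rfl
  have he1 : n - (a + 1) - 2 = e := by omega
  have he3 : n - (a + 3) = e := by omega
  have he2 : n - (a + 2) = e + 1 := by omega
  -- rationality
  have hrat : ∀ x ∈ Q1 A (a + 1), ∀ t ∈ Q0 A (a + 3), ∀ x' ∈ Q1 A (a + 1), ∀ t' ∈ Q0 A (a + 3),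
      bb (x, t) (x', t') = 0 → X.pair (a + 1) (θ x) ((X.lef (a + 1) ^ e) x') +
        X.pair (a + 3) t ((X.lef (a + 3) ^ e) t') = 0 := by
    intro x hx t ht x' hx' t' ht' h
    rw [hbb, form_apply, form_apply, ← map_add] at h
    obtain ⟨⟨σ, hσ, hσ'⟩, -⟩ := hp x hx
    have hθx : θ x ∈ Q1 A (a + 1) := by
      rw [hθ, hσ']
      exact Submodule.sub_mem _ (Submodule.smul_mem _ _ (lef_Q0 hσ)) hx
    obtain ⟨r1, hr1⟩ := rat1 he1 hθx hx'
    obtain ⟨r2, hr2⟩ := rat0 he3 ht ht'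
    exact eq_zero_of_phi hφ ⟨r1 + r2, by rw [hr1, hr2]; push_cast; rfl⟩ h
  let R : Submodule ℚ (X.H (a + 1) × X.H (a + 3)) := (Q0 A (a + 2)).map G
  have hR : ∀ r ∈ R, (∀ r' ∈ R, bb r r' = 0) → r = 0 := by
    rintro _ ⟨c, hc, rfl⟩ h'
    have h1 := h' _ ⟨c, hc, rfl⟩
    have h2 := hrat _ (gys_Q0 hc) _ (res_Q0 hc) _ (gys_Q0 hc) _ (res_Q0 hc) h1
    obtain ⟨⟨σ, hσ, hσ'⟩, h0⟩ := hp _ (gys_Q0 hc)
    rw [hσ'] at h0
    obtain ⟨r, hr, hr0, hr'⟩ := theta_pos (A := A) (b := a + 1) (e := e) (by omega) (gys_Q0 hc) hσ h0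
    rw [hθ, hσ', hr] at h2
    have h3 : X.res (a + 2) c = 0 ∧ r = 0 := by
      by_cases h : X.res (a + 2) c = 0
      · refine ⟨h, ?_⟩
        rw [h, map_zero, LinearMap.zero_apply, add_zero] at h2
        exact_mod_cast h2
      · exfalso
        obtain ⟨r2, hr2, hr2'⟩ := pos0Q he3 (res_Q0 hc) h
        rw [hr2'] at h2
        have : r + r2 = 0 := by exact_mod_cast h2
        linarith
    have h4 := hr' h3.2
    rw [hG]
    exact Prod.ext h4 h3.1
  obtain ⟨_, ⟨c1, hc1, rfl⟩, h2⟩ := exists_proj bb R hR (X.res a u + X.gys (a + 1) c, X.res (a + 2) c)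
  -- the orthogonal part
  set c2 := c - c1 with hc2
  have hc2Q : c2 ∈ Q0 A (a + 2) := Submodule.sub_mem _ hc hc1
  set s := X.res a u + X.gys (a + 1) c2 with hs
  set t := X.res (a + 2) c2 with ht
  have hsQ : s ∈ Q1 A (a + 1) := Submodule.add_mem _ (res_Q1 hu) (gys_Q0 hc2Q)
  have htQ : t ∈ Q0 A (a + 3) := res_Q0 hc2Q
  have hst : (X.res a u + X.gys (a + 1) c, X.res (a + 2) c) - G c1 = (s, t) := by
    rw [hG]
    apply Prod.ext
    · change X.res a u + X.gys (a + 1) c - X.gys (a + 1) c1 = s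
      rw [hs, hc2, map_sub]
      abel
    · change X.res (a + 2) c - X.res (a + 2) c1 = t
      rw [ht, hc2, map_sub]
  obtain ⟨⟨σ, hσ, hσ'⟩, h0⟩ := hp s hsQ
  rw [hσ'] at h0
  have hrs : X.res (a + 1) s + X.gys (a + 2) t = 0 := by
    rw [hs, map_add, X.res_res, zero_add, ht]
    exact X.res_gys (a + 1) c2
  have hE : ∀ c' ∈ Q0 A (a + 2), X.pair (a + 2)
      (X.lef (a + 2) (X.res (a + 1) σ) + X.gys (a + 2) t) ((X.lef (a + 2) ^ e) c') = 0 := by
    intro c' hc'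
    have h3 := h2 _ ⟨c', hc', rfl⟩
    rw [hst] at h3
    have h4 := hrat _ hsQ _ htQ _ (gys_Q0 hc') _ (res_Q0 hc') h3
    rw [hθ, hσ', ← gys_lef_pow, ← X.pair_res, ← res_lef_pow, ← X.pair_gys, ← LinearMap.add_apply,
      ← map_add, map_sub] at h4
    have h5 : X.res (a + 1) ((2 : ℚ) • X.lef (a + 1) σ) - X.res (a + 1) s + X.gys (a + 2) t =
        (2 : Ω) • (X.lef (a + 2) (X.res (a + 1) σ) + X.gys (a + 2) t) := by
      have h6 : X.res (a + 1) s = - X.gys (a + 2) t := eq_neg_of_add_eq_zero_left hrs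
      rw [h6, ratH_smul, map_smul, X.res_lef]
      push_cast
      rw [smul_add, two_smul Ω (X.gys (a + 2) t)]
      abel
    rw [h5, map_smul, LinearMap.smul_apply, smul_eq_mul] at h4
    exact (mul_eq_zero.1 h4).resolve_left two_ne_zero
  -- `res σ = 0`
  have hrσ : X.res (a + 1) σ = 0 := by
    have h3 := hE _ (res_Q0 hσ)
    rw [map_add, LinearMap.add_apply, X.pair_gys, res_lef_pow, X.res_res, map_zero, map_zero,
      add_zero, X.lef_pair, lef_lef_pow] at h3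
    exact eq_zero_of_pos he2 (res_Q0 hσ) h3
  have hZ1 : ∀ u' ∈ Q1 A a, X.pair (a + 1) s ((X.lef (a + 1) ^ e) (X.res a u')) = 0 := by
    intro u' hu'
    have h3 : s = X.res a u + X.gys (a + 1) c - X.gys (a + 1) c1 := by
      rw [hs, hc2, map_sub]
      abel
    rw [h3, map_sub, LinearMap.sub_apply, hZ u' hu', X.pair_gys, res_lef_pow, X.res_res, map_zero,
      map_zero, sub_zero]
  -- `gys σ = 0`
  have hgσ : X.gys a σ = 0 := by
    apply eq_zero_of_hodge (e := e + 1) (by omega) (gys_Q0 hσ)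
    · rw [show n - a - 1 = e + 2 by omega]
      apply eq_zero_of_pair (m := 2 + 2 * ((e + 2 : ℕ) : ℤ)) (m' := 0) (by push_cast; omega)
        (lef_pow_gr (Q1_gr (gys_Q0 hσ)) _)
      intro y hy
      refine pair_zero_of_Q0 (A := A) (X.pair a _) (fun τ hτ => ?_) hy
      rw [lef_pow_pair, X.pair_gys, res_lef_pow, ← lef_lef_pow, ← X.lef_pair]
      have h3 : X.lef (a + 1) σ = s - (s - X.lef (a + 1) σ) := by abel
      rw [h3, map_sub, LinearMap.sub_apply, ← lef_pow_pair (a + 1) (e + 1) (s - _), h0, map_zero,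
        LinearMap.zero_apply, sub_zero, ← lef_pow_lef, ← X.res_lef]
      exact hZ1 _ (lef_Q0 hτ)
    · rw [X.pair_gys, res_lef_pow, res_gys', hrσ, map_zero, neg_zero, map_zero, map_zero]
  -- `σ = 0`
  have hσ0 : σ = 0 := by
    apply eq_zero_of_pos (D := e + 2) (by omega) hσ
    rw [← lef_pow_lef]
    have h3 : X.lef (a + 1) σ = s - (s - X.lef (a + 1) σ) := by abel
    rw [h3, map_sub, map_sub, h0, map_zero, sub_zero, hs, map_add, map_add, ← res_lef_pow,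
      ← X.pair_gys, hgσ, map_zero, LinearMap.zero_apply, zero_add, ← gys_lef_pow, ← X.pair_res,
      hrσ, map_zero, LinearMap.zero_apply]
  -- `t = 0`
  have ht0 : t = 0 := by
    apply eq_zero_of_pos he3 htQ
    have h3 := hE c2 hc2Q
    rw [hrσ, map_zero, zero_add, X.pair_gys, res_lef_pow] at h3
    exact h3
  -- `s = 0`
  have hs0 : s = 0 := by
    apply eq_zero_of_hodge he1 hsQ
    · rw [hσ0, map_zero, sub_zero] at h0
      rwa [show n - (a + 1) - 1 = e + 1 by omega]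
    · have h3 : X.pair (a + 1) s ((X.lef (a + 1) ^ e) s) =
          X.pair (a + 1) s ((X.lef (a + 1) ^ e) (X.res a u)) +
            X.pair (a + 1) s ((X.lef (a + 1) ^ e) (X.gys (a + 1) c2)) := by
        rw [← map_add, ← map_add]
      rw [ht0, map_zero, add_zero] at hrs
      rw [h3, hZ1 u hu, zero_add, ← gys_lef_pow, ← X.pair_res, hrs, map_zero, LinearMap.zero_apply]
  refine ⟨c1, hc1, ?_, ?_⟩
  · rw [← sub_eq_zero]
    have h3 := congrArg Prod.fst hst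
    rw [hs0] at h3
    exact h3
  · rw [← sub_eq_zero]
    have h3 := congrArg Prod.snd hst
    rw [ht0] at h3
    exact h3

end Pool.Agent.R942.WM
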