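import Pool.Agent.R942.WM.Core2

/-!
# `H^2` of the strata: the base change to `Ω` and the surjectivity
-/

set_option autoImplicit false

namespace Pool.Agent.R942.WM

open Module Pool.Agent.Y143

universe u v

variable {Ω : Type u} [Field Ω] [CharZero Ω] {Γ : Type} {n q : ℕ}

attribute [local instance] ratH towH

variable {X : SpecialFibre.{u, v} Ω Γ n q} {A : DivisorClasses X}

lemma two_inj (A : DivisorClasses X) {a e : ℕ} (ha : n = a + 3 + e)
    {u : X.H a} {c : X.H (a + 2)}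
    (hu : u ∈ Submodule.span Ω (A.A1 a : Set (X.H a))) (hc : c ∈ X.gr (a + 2) 0)
    (hZ : ∀ u' ∈ X.gr a 2, X.pair (a + 1) (X.res a u + X.gys (a + 1) c)
      ((X.lef (a + 1) ^ e) (X.res a u')) = 0) :
    ∃ c' ∈ X.gr (a + 2) 0, X.res a u + X.gys (a + 1) c = X.gys (a + 1) c' ∧
      X.res (a + 2) c = X.res (a + 2) c' := by
  classical
  obtain ⟨s1, v, hv, hv0, rfl⟩ := gr_two_comb hu
  obtain ⟨s2, w, hw, hw0, rfl⟩ := gr_zero_comb (A := A) hc
  rw [← comb_mono (Finset.subset_union_left (s₂ := s2)) hv0,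
    ← comb_mono (Finset.subset_union_right (s₁ := s1)) hw0] at *
  set s := s1 ∪ s2 with hs
  clear_value s
  have h1 : X.res a (comb s v) + X.gys (a + 1) (comb s w) =
      comb s fun i => X.res a (v i) + X.gys (a + 1) (w i) := by
    rw [map_comb, map_comb, comb_add]
  rw [h1] at hZ ⊢
  have hQ : ∀ i, X.res a (v i) + X.gys (a + 1) (w i) ∈ Q1 A (a + 1) := fun i =>
    Submodule.add_mem _ (res_Q1 (hv i)) (gys_Q0 (hw i))
  have h2 : ∀ u' ∈ Q1 A a, ∀ i ∈ s, X.pair (a + 1) (X.res a (v i) + X.gys (a + 1) (w i))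
      ((X.lef (a + 1) ^ e) (X.res a u')) = 0 := by
    intro u' hu'
    exact comb_ind ((X.pair (a + 1)).flip ((X.lef (a + 1) ^ e) (X.res a u')))
      (fun i _ => rat1 (e := e) (by omega) (hQ i) (res_Q1 hu')) (hZ u' (Q1_gr hu'))
  have h3 : ∀ i : Ix Ω, ∃ c' : X.H (a + 2), i ∈ s → c' ∈ Q0 A (a + 2) ∧
      X.res a (v i) + X.gys (a + 1) (w i) = X.gys (a + 1) c' ∧
      X.res (a + 2) (w i) = X.res (a + 2) c' := by
    intro i
    by_cases hi : i ∈ s
    · obtain ⟨c', hc', h4, h5⟩ := two_inj_rat ha (hv i) (hw i) (fun u' hu' => h2 u' hu' i hi)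
      exact ⟨c', fun _ => ⟨hc', h4, h5⟩⟩
    · exact ⟨0, fun h => absurd h hi⟩
  choose c' hc' using h3
  refine ⟨comb s c', comb_mem fun i hi => Q0_gr (hc' i hi).1, ?_, ?_⟩
  · rw [map_comb]
    exact comb_congr fun i hi => (hc' i hi).2.1
  · rw [map_comb, map_comb]
    exact comb_congr fun i hi => (hc' i hi).2.2

lemma eq_zero_of_pair' {a : ℕ} {m : ℤ} (hm : 2 + m = 2 * ((n : ℤ) - a)) {z : X.H a}
    (hz : z ∈ X.gr a m) (h : ∀ y ∈ X.gr a 2, X.pair a y z = 0) : z = 0 := by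
  apply eq_zero_of_pair (m' := 2) (by omega) hz
  intro y hy
  rw [pair_comm2 hy]
  exact h y hy

lemma eq_zero_of_pair'' {a : ℕ} {m : ℤ} (hm : m = 2 * ((n : ℤ) - a)) {z : X.H a}
    (hz : z ∈ X.gr a m) (h : ∀ y ∈ X.gr a 0, X.pair a y z = 0) : z = 0 := by
  apply eq_zero_of_pair (m' := 0) (by omega) hz
  intro y hy
  rw [pair_comm0 hy]
  exact h y hy

/-- The form on `H^2 ⊕ H^0`. -/
noncomputable def beta (X : SpecialFibre.{u, v} Ω Γ n q) (a e : ℕ) :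
    (X.H (a + 1) × X.H (a + 3)) →ₗ[Ω] (X.H (a + 1) × X.H (a + 3)) →ₗ[Ω] Ω :=
  (X.pair (a + 1)).compl₁₂ (LinearMap.fst Ω _ _) ((X.lef (a + 1) ^ e) ∘ₗ LinearMap.fst Ω _ _) +
    (X.pair (a + 3)).compl₁₂ (LinearMap.snd Ω _ _) ((X.lef (a + 3) ^ e) ∘ₗ LinearMap.snd Ω _ _)

lemma beta_apply (a e : ℕ) (v w : X.H (a + 1) × X.H (a + 3)) : beta X a e v w =
    X.pair (a + 1) v.1 ((X.lef (a + 1) ^ e) w.1) +
      X.pair (a + 3) v.2 ((X.lef (a + 3) ^ e) w.2) := rfl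

variable (X) in
/-- The space `H^2 ⊕ H^0`. -/
def GG (a : ℕ) : Submodule Ω (X.H (a + 1) × X.H (a + 3)) := (X.gr (a + 1) 2).prod (X.gr (a + 3) 0)

lemma beta_perf {a e : ℕ} (ha : n = a + 3 + e) : Perf (beta X a e) (GG X a) (GG X a) := by
  constructor
  · rintro ⟨s, t⟩ ⟨hs, ht⟩ h
    simp only at hs ht
    apply Prod.ext
    · apply eq_zero_of_pair (a := a + 1) (m := 2) (m' := 2 + 2 * e) (by push_cast; omega) hs
      intro y hy
      obtain ⟨x, hx, rfl⟩ := X.lef_surj (a + 1) e y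
        (by rwa [show (n : ℤ) - ((a + 1 : ℕ) : ℤ) + e = 2 + 2 * e by push_cast; omega])
      have h1 := h (x, 0) ⟨by
        rwa [show (n : ℤ) - ((a + 1 : ℕ) : ℤ) - e = 2 by push_cast; omega] at hx,
        Submodule.zero_mem _⟩
      rw [beta_apply] at h1
      simpa using h1
    · apply eq_zero_of_pair (a := a + 3) (m := 0) (m' := 2 * e) (by push_cast; omega) ht
      intro y hy
      obtain ⟨x, hx, rfl⟩ := X.lef_surj (a + 3) e y
        (by rwa [show (n : ℤ) - ((a + 3 : ℕ) : ℤ) + e = 2 * e by push_cast; omega])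
      have h1 := h (0, x) ⟨Submodule.zero_mem _, by
        rwa [show (n : ℤ) - ((a + 3 : ℕ) : ℤ) - e = 0 by push_cast; omega] at hx⟩
      rw [beta_apply] at h1
      simpa using h1
  · rintro ⟨s, t⟩ ⟨hs, ht⟩ h
    simp only at hs ht
    apply Prod.ext
    · apply X.lef_inj (a + 1) e s
        (by rwa [show (n : ℤ) - ((a + 1 : ℕ) : ℤ) - e = 2 by push_cast; omega])
      apply eq_zero_of_pair' (a := a + 1) (m := 2 + 2 * e) (by push_cast; omega)
        (lef_pow_gr hs e)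
      intro y hy
      have h1 := h (y, 0) ⟨hy, Submodule.zero_mem _⟩
      rw [beta_apply] at h1
      simpa using h1
    · apply X.lef_inj (a + 3) e t
        (by rwa [show (n : ℤ) - ((a + 3 : ℕ) : ℤ) - e = 0 by push_cast; omega])
      apply eq_zero_of_pair'' (a := a + 3) (m := 0 + 2 * e) (by push_cast; omega)
        (lef_pow_gr ht e)
      intro y hy
      have h1 := h (0, y) ⟨Submodule.zero_mem _, hy⟩
      rw [beta_apply] at h1
      simpa using h1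

lemma annR_inf {C : Type*} [AddCommGroup C] [Module Ω C] [FiniteDimensional Ω C]
    {ψ : C →ₗ[Ω] C →ₗ[Ω] Ω} {A A' : Submodule Ω C}
    (h : Perf ψ A A') {U V : Submodule Ω C} (hU : U ≤ A) (hV : V ≤ A) :
    annR ψ (U ⊓ V) A' = annR ψ U A' ⊔ annR ψ V A' := by
  have h1 : annR ψ.flip (annR ψ U A' ⊔ annR ψ V A') A = U ⊓ V := by
    rw [annR_sup, h.annR_annR hU, h.annR_annR hV]
  have h2 : annR ψ U A' ⊔ annR ψ V A' ≤ A' := sup_le (fun y hy => hy.1) (fun y hy => hy.1)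
  have h3 := h.flip.annR_annR h2
  rw [h1] at h3
  exact h3

lemma two_surj (A : DivisorClasses X) {a e : ℕ} (ha : n = a + 3 + e)
    (hA : X.gr a 2 ≤ Submodule.span Ω (A.A1 a : Set (X.H a)))
    (hinj : ∀ x ∈ X.gr a 4, (X.lef a ^ e) x = 0 → x = 0)
    {s : X.H (a + 1)} {t : X.H (a + 3)} (hs : s ∈ X.gr (a + 1) 2) (ht : t ∈ X.gr (a + 3) 0)
    (hst : X.res (a + 1) s + X.gys (a + 2) t = 0) :
    ∃ u ∈ X.gr a 2, ∃ c ∈ X.gr (a + 2) 0, X.gys a (s - (X.res a u + X.gys (a + 1) c)) = 0 := by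
  let F : (X.H a × X.H (a + 2)) →ₗ[Ω] (X.H (a + 1) × X.H (a + 3)) :=
    LinearMap.prod (X.res a ∘ₗ LinearMap.fst Ω _ _ + X.gys (a + 1) ∘ₗ LinearMap.snd Ω _ _)
      (X.res (a + 2) ∘ₗ LinearMap.snd Ω _ _)
  have hF : ∀ u c, F (u, c) = (X.res a u + X.gys (a + 1) c, X.res (a + 2) c) := fun _ _ => rfl
  let WB : Submodule Ω (X.H (a + 1) × X.H (a + 3)) := ((X.gr a 2).prod (X.gr (a + 2) 0)).map F
  let V : Submodule Ω (X.H (a + 1) × X.H (a + 3)) := annR (beta X a e).flip WB (GG X a)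
  have hWB : WB ≤ GG X a := by
    rintro _ ⟨⟨u, c⟩, ⟨hu, hc⟩, rfl⟩
    exact ⟨Submodule.add_mem _ (X.res_gr _ _ _ hu) (X.gys_gr (a + 1) 0 _ hc),
      X.res_gr _ _ _ hc⟩
  have hV : V ≤ GG X a := fun y hy => hy.1
  have hperf := beta_perf (X := X) ha
  -- the intersection
  have hint : ∀ y ∈ WB ⊓ V, ∃ c ∈ X.gr (a + 2) 0, y = (X.gys (a + 1) c, X.res (a + 2) c) := by
    rintro y ⟨⟨⟨u, c⟩, ⟨hu, hc⟩, rfl⟩, hy⟩
    simp only at hu hc
    have hZ : ∀ u' ∈ X.gr a 2, X.pair (a + 1) (X.res a u + X.gys (a + 1) c)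
        ((X.lef (a + 1) ^ e) (X.res a u')) = 0 := by
      intro u' hu'
      have h1 := hy.2 (F (u', 0)) ⟨(u', 0), ⟨hu', Submodule.zero_mem _⟩, rfl⟩
      rw [LinearMap.flip_apply, beta_apply, hF, hF] at h1
      simpa using h1
    obtain ⟨c', hc', h1, h2⟩ := two_inj A ha (hA hu) hc hZ
    exact ⟨c', hc', Prod.ext h1 h2⟩
  have hmem : (s, t) ∈ annR (beta X a e) (WB ⊓ V) (GG X a) := by
    refine ⟨⟨hs, ht⟩, fun y hy => ?_⟩
    obtain ⟨c, hc, rfl⟩ := hint y hy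
    rw [beta_apply]
    simp only
    rw [X.pair_gys, res_lef_pow, X.pair_res, gys_lef_pow, ← map_add, ← map_add, hst, map_zero,
      map_zero]
  rw [annR_inf hperf hWB hV] at hmem
  have hVV : annR (beta X a e) V (GG X a) = WB := hperf.flip.annR_annR hWB
  rw [hVV] at hmem
  obtain ⟨w', hw', w, ⟨⟨u, c⟩, ⟨hu, hc⟩, rfl⟩, hsum⟩ := Submodule.mem_sup.1 hmem
  refine ⟨u, hu, c, hc, ?_⟩
  have h1 : w'.1 = s - (X.res a u + X.gys (a + 1) c) := by
    have := congrArg Prod.fst hsum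
    rw [hF] at this
    simp only [Prod.fst_add] at this
    rw [← this]
    abel
  rw [← h1]
  have hw1 : w'.1 ∈ X.gr (a + 1) 2 := hw'.1.1
  have hg : X.gys a w'.1 ∈ X.gr a 4 := X.gys_gr a 2 _ hw1
  apply hinj _ hg
  apply eq_zero_of_pair' (m := 4 + 2 * e) (by omega) (lef_pow_gr hg e)
  intro u' hu'
  have h2 := hw'.2 (F (u', 0)) ⟨(u', 0), ⟨hu', Submodule.zero_mem _⟩, rfl⟩
  rw [beta_apply, hF] at h2
  simp only [map_zero, add_zero, LinearMap.zero_apply] at h2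
  rw [← gys_lef_pow, ← X.pair_res]
  exact h2

end Pool.Agent.R942.WM
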