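import Pool.Agent.R942.WM.Core3

/-!
# The outer columns of the weight spectral sequence
-/

set_option autoImplicit false

namespace Pool.Agent.R942.WM

open Module Pool.Agent.Y143

universe u v

variable {Ω : Type u} [Field Ω] [CharZero Ω] {Γ : Type} {n q : ℕ}

variable {X : SpecialFibre.{u, v} Ω Γ n q}

lemma col_pos (k a : ℕ) : InColumn (k : ℤ) a ↔ k ≤ a ∧ 2 ∣ (a : ℤ) - k := by
  unfold InColumn
  rw [Nat.abs_cast, Nat.cast_le]

lemma col_neg (k a : ℕ) : InColumn (-(k : ℤ)) a ↔ k ≤ a ∧ 2 ∣ (a : ℤ) - k := by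
  rw [SpecialFibre.inColumn_neg, col_pos]

lemma mem_tot {r j : ℤ} {x : X.C} : x ∈ X.tot r j ↔
    ∀ a : ℕ, x a ∈ X.gr a (n + j - a) ∧ (¬ InColumn r a → x a = 0) := by
  unfold SpecialFibre.tot
  rw [X.mem_E₁]
  apply forall_congr'
  intro a
  rw [show (n : ℤ) + j - r + r - a = n + j - a by ring]

lemma tot_neg (r j : ℤ) : X.tot (-r) j = X.tot r j := by
  ext x
  rw [mem_tot, mem_tot]
  apply forall_congr'
  intro a
  rw [SpecialFibre.inColumn_neg]

lemma tot_cast {r r' j j' : ℤ} (hr : r = r') (hj : j = j') {x : X.C} (hx : x ∈ X.tot r j) :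
    x ∈ X.tot r' j' := by subst hr; subst hj; exact hx

lemma diff_cast {r r' : ℤ} (hr : r = r') (x : X.C) : X.diff r x = X.diff r' x := by subst hr; rfl

lemma tot_deg {r : ℤ} {m : ℕ} {x : X.C} (hx : x ∈ X.tot r ((m : ℤ) - n)) {a : ℕ} {k : ℤ}
    (hk : (m : ℤ) - a = k) : x a ∈ X.gr a k := by
  have := (mem_tot.1 hx a).1
  rwa [show (n : ℤ) + ((m : ℤ) - n) - a = k by omega] at this

lemma tot_zero {r : ℤ} {m : ℕ} {x : X.C} (hx : x ∈ X.tot r ((m : ℤ) - n)) {a : ℕ}
    (ha : m < a) : x a = 0 := by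
  have h1 := tot_deg hx (a := a) rfl
  rw [X.gr_eq_bot a _ (Or.inl (by omega))] at h1
  exact h1

/-- A family in the column `±(a + 1)`, of total degree `a + 1 + k` with `k ≤ 2`, has components only
in the positions `a + 1` and `a + 3`. -/
lemma comp_zero {a k : ℕ} (hk : k ≤ 2) {x : X.C}
    (hx : x ∈ X.tot ((a + 1 : ℕ) : ℤ) (((a + 1 + k : ℕ) : ℤ) - n)) {b : ℕ} (h1 : b ≠ a + 1)
    (h3 : b ≠ a + 3) : x b = 0 := by
  by_cases hb : a + 1 + k < b
  · exact tot_zero hx hb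
  · apply (mem_tot.1 hx b).2
    rw [col_pos]
    rintro ⟨h4, h5⟩
    push_cast at h5
    omega

lemma ext_of {a k : ℕ} (hk : k ≤ 2) {x y : X.C}
    (hx : x ∈ X.tot ((a + 1 : ℕ) : ℤ) (((a + 1 + k : ℕ) : ℤ) - n))
    (hy : y ∈ X.tot ((a + 1 : ℕ) : ℤ) (((a + 1 + k : ℕ) : ℤ) - n)) (h1 : x (a + 1) = y (a + 1))
    (h3 : x (a + 3) = y (a + 3)) : x = y := by
  funext b
  by_cases hb : b = a + 1
  · subst hb; exact h1
  · by_cases hb' : b = a + 3
    · subst hb'; exact h3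
    · rw [comp_zero hk hx hb hb', comp_zero hk hy hb hb']

lemma diff_of {r : ℤ} {b : ℕ} (h : InColumn (r + 1) b) (x : X.C) :
    X.diff r x b = X.resC x b + X.gysC x b := by
  rw [X.diff_apply, X.cut_of h]
  rfl

/-- The family with the components `u` and `c` in the positions `a` and `a + 2`. -/
noncomputable def fam (a : ℕ) (u : X.H a) (c : X.H (a + 2)) : X.C :=
  Pi.single a u + Pi.single (a + 2) c

lemma fam_left (a : ℕ) (u : X.H a) (c : X.H (a + 2)) : fam a u c a = u := by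
  unfold fam
  rw [Pi.add_apply, Pi.single_eq_same, Pi.single_eq_of_ne (by omega), add_zero]

lemma fam_right (a : ℕ) (u : X.H a) (c : X.H (a + 2)) : fam a u c (a + 2) = c := by
  unfold fam
  rw [Pi.add_apply, Pi.single_eq_same, Pi.single_eq_of_ne (by omega), zero_add]

lemma fam_other (a : ℕ) (u : X.H a) (c : X.H (a + 2)) {b : ℕ} (h : b ≠ a) (h' : b ≠ a + 2) :
    fam a u c b = 0 := by
  unfold fam
  rw [Pi.add_apply, Pi.single_eq_of_ne h, Pi.single_eq_of_ne h', zero_add]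

lemma fam_mem {a k : ℕ} {u : X.H a} {c : X.H (a + 2)} (hu : u ∈ X.gr a k)
    (hc : c ∈ X.gr (a + 2) ((k : ℤ) - 2)) :
    fam a u c ∈ X.tot (a : ℤ) (((a + k : ℕ) : ℤ) - n) := by
  rw [mem_tot]
  intro b
  by_cases h : b = a
  · subst h
    rw [fam_left]
    refine ⟨?_, fun h => absurd ((col_pos b b).2 ⟨le_rfl, by simp⟩) h⟩
    rwa [show (n : ℤ) + (((b + k : ℕ) : ℤ) - n) - b = k by push_cast; ring]
  · by_cases h' : b = a + 2
    · subst h'
      rw [fam_right]
      refine ⟨?_, fun h => absurd ((col_pos a (a + 2)).2 ⟨by omega, by push_cast; simp⟩) h⟩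
      rwa [show (n : ℤ) + (((a + k : ℕ) : ℤ) - n) - ((a + 2 : ℕ) : ℤ) = k - 2 by push_cast; ring]
    · rw [fam_other a u c h h']
      exact ⟨Submodule.zero_mem _, fun _ => rfl⟩

lemma fam_mem' {a k : ℕ} {c : X.H (a + 2)} (hc : c ∈ X.gr (a + 2) ((k : ℤ) - 2)) :
    fam a 0 c ∈ X.tot (-(((a + 2 : ℕ) : ℤ))) (((a + k : ℕ) : ℤ) - n) := by
  rw [mem_tot]
  intro b
  by_cases h' : b = a + 2
  · subst h'
    rw [fam_right]
    refine ⟨?_, fun h => absurd ((col_neg (a + 2) (a + 2)).2 ⟨le_rfl, by simp⟩) h⟩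
    rwa [show (n : ℤ) + (((a + k : ℕ) : ℤ) - n) - ((a + 2 : ℕ) : ℤ) = k - 2 by push_cast; ring]
  · by_cases h : b = a
    · subst h
      rw [fam_left]
      exact ⟨Submodule.zero_mem _, fun _ => rfl⟩
    · rw [fam_other a 0 c h h']
      exact ⟨Submodule.zero_mem _, fun _ => rfl⟩

/-- The values of the differential on a family in the column `a`. -/
lemma diff_vals {a k : ℕ} (hk : k ≤ 2) {y : X.C}
    (hy : y ∈ X.tot (a : ℤ) (((a + k : ℕ) : ℤ) - n)) :
    X.diff a y (a + 1) = X.res a (y a) + X.gys (a + 1) (y (a + 2)) ∧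
      X.diff a y (a + 3) = X.res (a + 2) (y (a + 2)) := by
  constructor
  · rw [diff_of]
    · rfl
    · have := (col_pos (a + 1) (a + 1)).2 ⟨le_rfl, by simp⟩
      rwa [show ((a + 1 : ℕ) : ℤ) = a + 1 by push_cast; rfl] at this
  · rw [diff_of]
    · rw [X.resC_succ, X.gysC_apply, tot_zero hy (a := a + 3 + 1) (by omega), map_zero, add_zero]
    · have := (col_pos (a + 1) (a + 3)).2 ⟨by omega, by push_cast; ring_nf; simp⟩
      rwa [show ((a + 1 : ℕ) : ℤ) = a + 1 by push_cast; rfl] at this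

/-- The value at `a` of the differential on a family in the column `-(a + 1)`. -/
lemma diff_neg_val {a : ℕ} {j : ℤ} {x : X.C} (hx : x ∈ X.tot (-(((a + 1 : ℕ) : ℤ))) j) :
    X.diff (-(((a + 1 : ℕ) : ℤ))) x a = X.gys a (x (a + 1)) := by
  rw [diff_of]
  · have h1 : X.resC x a = 0 := by
      cases a with
      | zero => rfl
      | succ b =>
        rw [X.resC_succ, (mem_tot.1 hx b).2, map_zero]
        rw [col_neg]
        omega
    rw [h1, zero_add]
    rfl
  · have := (col_neg a a).2 ⟨le_rfl, by simp⟩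
    rwa [show (-((a : ℕ) : ℤ)) = -(((a + 1 : ℕ) : ℤ)) + 1 by push_cast; ring] at this

/-- The values of the differential on a family in the column `-(a + 2)`. -/
lemma diff_neg_vals {a k : ℕ} (hk : k ≤ 2) {y : X.C}
    (hy : y ∈ X.tot (-(((a + 2 : ℕ) : ℤ))) (((a + k : ℕ) : ℤ) - n)) :
    X.diff (-(((a + 2 : ℕ) : ℤ))) y (a + 1) = X.gys (a + 1) (y (a + 2)) ∧
      X.diff (-(((a + 2 : ℕ) : ℤ))) y (a + 3) = X.res (a + 2) (y (a + 2)) := by
  constructor
  · exact diff_neg_val (a := a + 1) hy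
  · rw [diff_of]
    · rw [X.resC_succ, X.gysC_apply, tot_zero hy (a := a + 3 + 1) (by omega), map_zero, add_zero]
    · have := (col_neg (a + 1) (a + 3)).2 ⟨by omega, by push_cast; ring_nf; simp⟩
      rwa [show (-(((a + 1 : ℕ) : ℕ) : ℤ)) = -(((a + 2 : ℕ) : ℤ)) + 1 by push_cast; ring] at this

lemma nInj_of {a k : ℕ} (hk : k ≤ 2)
    (H : ∀ u ∈ X.gr a k, ∀ c ∈ X.gr (a + 2) ((k : ℤ) - 2),
      X.gys a (X.res a u + X.gys (a + 1) c) = 0 → ∃ c' ∈ X.gr (a + 2) ((k : ℤ) - 2),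
        X.res a u + X.gys (a + 1) c = X.gys (a + 1) c' ∧ X.res (a + 2) c = X.res (a + 2) c') :
    NInj X.diff X.tot ((a + 1 : ℕ) : ℤ) (((a + 1 + k : ℕ) : ℤ) - n) := by
  rintro x ⟨⟨hx1, hx2⟩, ⟨y, hy, hyx⟩⟩
  have hx2' : X.diff (-(((a + 1 : ℕ) : ℤ))) x = 0 := hx2
  have hy' : y ∈ X.tot (a : ℤ) (((a + k : ℕ) : ℤ) - n) :=
    tot_cast (by push_cast; ring) (by push_cast; ring) hy
  have hyx' : X.diff a y = x := by
    rw [← hyx]
    exact diff_cast (by push_cast; ring) y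
  obtain ⟨h1, h3⟩ := diff_vals hk hy'
  rw [hyx'] at h1 h3
  have hg : X.gys a (x (a + 1)) = 0 := by
    rw [← diff_neg_val hx1, hx2']
    rfl
  rw [h1] at hg
  obtain ⟨c', hc', h4, h5⟩ := H (y a) (tot_deg hy' (by push_cast; ring)) (y (a + 2))
    (tot_deg hy' (by push_cast; ring)) hg
  have hz := fam_mem' (X := X) (k := k) hc'
  obtain ⟨h6, h7⟩ := diff_neg_vals hk hz
  rw [fam_right] at h6 h7
  refine ⟨fam a 0 c', tot_cast (by push_cast; ring) (by push_cast; ring) hz, ?_⟩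
  have hxt := hx1
  rw [tot_neg] at hxt
  rw [show (-(((a + 1 : ℕ) : ℤ)) - 1) = -(((a + 2 : ℕ) : ℤ)) by push_cast; ring]
  have h8 : X.diff (-(((a + 2 : ℕ) : ℤ))) (fam a 0 c') ∈
      X.tot ((a + 1 : ℕ) : ℤ) (((a + 1 + k : ℕ) : ℤ) - n) := by
    have h9 := X.diff_mem (r := -(((a + 2 : ℕ) : ℤ))) hz
    rw [← tot_neg]
    exact X.mem_E₁_cast (by push_cast; ring) (by push_cast; ring) h9
  apply ext_of hk h8 hxt
  · rw [h6, ← h4, h1]
  · rw [h7, ← h5, h3]

lemma nSurj_of {a k : ℕ}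
    (H : ∀ s ∈ X.gr (a + 1) k, ∀ t ∈ X.gr (a + 3) ((k : ℤ) - 2),
      X.res (a + 1) s + X.gys (a + 2) t = 0 → ∃ u ∈ X.gr a k, ∃ c ∈ X.gr (a + 2) ((k : ℤ) - 2),
        X.gys a (s - (X.res a u + X.gys (a + 1) c)) = 0) (hk : k ≤ 2) :
    NSurj X.diff X.tot ((a + 1 : ℕ) : ℤ) (((a + 1 + k : ℕ) : ℤ) - n) := by
  rintro y ⟨hy1, hy2⟩
  have hy2' : X.diff ((a + 1 : ℕ) : ℤ) y = 0 := hy2
  have hcol : ∀ b : ℕ, a + 2 ≤ b → 2 ∣ (b : ℤ) - a → InColumn (((a + 1 : ℕ) : ℤ) + 1) b := by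
    intro b hb hb2
    have := (col_pos (a + 2) b).2 ⟨hb, by push_cast; omega⟩
    rwa [show ((a + 2 : ℕ) : ℤ) = ((a + 1 : ℕ) : ℤ) + 1 by push_cast; ring] at this
  have h1 : X.res (a + 1) (y (a + 1)) + X.gys (a + 2) (y (a + 3)) = 0 := by
    have := congrFun hy2' (a + 2)
    rw [diff_of (hcol _ le_rfl (by push_cast; simp))] at this
    exact this
  obtain ⟨u, hu, c, hc, hg⟩ := H (y (a + 1)) (tot_deg hy1 (by push_cast; ring)) (y (a + 3))
    (tot_deg hy1 (by push_cast; ring)) h1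
  have hz := fam_mem (X := X) hu hc
  set z := fam a u c with hzdef
  have hdz : X.diff a z ∈ X.tot ((a + 1 : ℕ) : ℤ) (((a + 1 + k : ℕ) : ℤ) - n) := by
    have h9 := X.diff_mem (r := (a : ℤ)) hz
    exact X.mem_E₁_cast (by push_cast; ring) (by push_cast; ring) h9
  have hdd : X.diff ((a + 1 : ℕ) : ℤ) (X.diff a z) = 0 := by
    have := X.diff_diff (r := (a : ℤ)) hz
    rwa [show ((a : ℤ) + 1) = ((a + 1 : ℕ) : ℤ) by push_cast; ring] at this
  refine Submodule.mem_sup.2 ⟨y - X.diff a z, ?_, X.diff a z, ?_, by abel⟩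
  · have hx : y - X.diff a z ∈ X.tot ((a + 1 : ℕ) : ℤ) (((a + 1 + k : ℕ) : ℤ) - n) :=
      Submodule.sub_mem _ hy1 hdz
    have hxn := hx
    rw [← tot_neg] at hxn
    refine ⟨hxn, ?_⟩
    rw [SetLike.mem_coe, LinearMap.mem_ker]
    have hdx : X.diff ((a + 1 : ℕ) : ℤ) (y - X.diff a z) = 0 := by
      rw [map_sub, hy2', hdd, sub_zero]
    funext b
    by_cases hb : b = a
    · subst hb
      rw [diff_neg_val hxn, Pi.sub_apply, (diff_vals hk hz).1, hzdef, fam_left, fam_right, hg]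
      rfl
    · rw [X.diff_apply]
      by_cases hc : InColumn (-(((a + 1 : ℕ) : ℤ)) + 1) b
      · rw [X.cut_of hc]
        rw [show (-(((a + 1 : ℕ) : ℤ)) + 1) = -((a : ℕ) : ℤ) by push_cast; ring, col_neg] at hc
        have hb2 : a + 2 ≤ b := by
          obtain ⟨h4, h5⟩ := hc
          omega
        have := congrFun hdx b
        rw [diff_of (hcol _ hb2 hc.2)] at this
        exact this
      · rw [X.cut_of_not hc]
        rfl
  · exact ⟨z, tot_cast (by push_cast; ring) (by push_cast; ring) hz,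
      diff_cast (by push_cast; ring) z⟩

/-- Beyond the last column there is nothing to prove. -/
lemma nInj_triv {b m : ℕ} (h : m < b) : NInj X.diff X.tot (b : ℤ) ((m : ℤ) - n) := by
  rintro x ⟨⟨hx1, -⟩, -⟩
  have : x = 0 := by
    funext c
    by_cases hc : m < c
    · exact tot_zero hx1 hc
    · apply (mem_tot.1 hx1 c).2
      rw [col_neg]
      omega
  rw [this]
  exact Submodule.zero_mem _

lemma nSurj_triv {b m : ℕ} (h : m < b) : NSurj X.diff X.tot (b : ℤ) ((m : ℤ) - n) := by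
  rintro x ⟨hx1, -⟩
  have : x = 0 := by
    funext c
    by_cases hc : m < c
    · exact tot_zero hx1 hc
    · apply (mem_tot.1 hx1 c).2
      rw [col_pos]
      omega
  rw [this]
  exact Submodule.zero_mem _

/-! ### Duality -/

lemma bd_le_zc' (i j : ℤ) : Bd X.diff X.tot i j ≤ Zc X.diff X.tot i j := by
  rw [X.bd_eq, X.zc_eq]
  exact X.bd_le_zc _ _

lemma ann_zc (i j : ℤ) : annR X.psi (Zc X.diff X.tot i j) (X.tot (-i) (-j)) =
    Bd X.diff X.tot (-i) (-j) := by
  have hA := X.lefDual.perf i j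
  have hB := X.lefDual.perf (i + 1) (j + 1)
  have h := annR_ker (f := X.diff i) (g := X.diff (-i - 1)) hA hB
    (fun x hx => X.mem_E₁_cast rfl (by ring) (X.diff_mem (r := i) hx))
    (fun y hy => by
      have := X.diff_mem (r := -(i + 1)) hy
      rw [show -(i + 1) = -i - 1 by ring] at this
      exact X.mem_E₁_cast (by ring) (by ring) this)
    (fun x hx y hy => by
      refine X.psi_diff (r := i) hx (w' := n + (-(j + 1)) - (-(i + 1))) ?_
      exact X.mem_E₁_cast (by ring) rfl hy)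
  unfold Zc Bd
  rw [h, show -(i + 1) = -i - 1 by ring, show -(j + 1) = -j - 1 by ring]

lemma ann_bd (i j : ℤ) : annR X.psi (Bd X.diff X.tot i j) (X.tot (-i) (-j)) =
    Zc X.diff X.tot (-i) (-j) := by
  have hle : Bd X.diff X.tot i j ≤ X.tot i j := (bd_le_zc' i j).trans inf_le_left
  have h1 := ann_zc (X := X) (-i) (-j)
  rw [neg_neg, neg_neg] at h1
  -- use the double annihilator for the flipped form
  have hA := X.lefDual.perf (i - 1) (j - 1)
  have hB := X.lefDual.perf i j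
  unfold Zc Bd
  refine annR_map (f := X.diff (i - 1)) (g := X.diff (-i)) hA (fun y hy => ?_) (fun x hx y hy => ?_)
  · have := X.diff_mem (r := -i) hy
    exact X.mem_E₁_cast (by ring) (by ring) this
  · have h2 := X.psi_diff (r := i - 1) hx (w' := n + (-j) - (-i)) (y := y)
      (X.mem_E₁_cast (by ring) rfl hy)
    rw [h2]
    rw [show -(i - 1) - 1 = -i by ring]

/-- The injectivity in the degree `j` implies the surjectivity in the degree `-j`. -/
lemma nSurj_of_nInj {i j : ℤ} (h : NInj X.diff X.tot i j) : NSurj X.diff X.tot i (-j) := by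
  have hperf : Perf X.psi (X.tot i j) (X.tot i (-j)) := by
    have := X.lefDual.perf i j
    rwa [tot_neg i (-j)] at this
  have h1 : annR X.psi (Zc X.diff X.tot (-i) j) (X.tot i (-j)) = Bd X.diff X.tot i (-j) := by
    have := ann_zc (X := X) (-i) j
    rwa [neg_neg] at this
  have h2 : annR X.psi (Bd X.diff X.tot i j) (X.tot i (-j)) = Zc X.diff X.tot (-i) (-j) := by
    have := ann_bd (X := X) i j
    rwa [tot_neg i (-j)] at this
  have h3 : annR X.psi (Bd X.diff X.tot (-i) j) (X.tot i (-j)) = Zc X.diff X.tot i (-j) := by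
    have := ann_bd (X := X) (-i) j
    rwa [neg_neg] at this
  unfold NSurj
  rw [← h3, ← h2, ← h1, ← annR_inf hperf]
  · exact annR_mono (inf_comm (Bd X.diff X.tot i j) _ ▸ h)
  · exact (bd_le_zc' i j).trans inf_le_left
  · refine inf_le_left.trans ?_
    rw [tot_neg]

/-- The surjectivity in the degree `j` implies the injectivity in the degree `-j`. -/
lemma nInj_of_nSurj {i j : ℤ} (h : NSurj X.diff X.tot i j) : NInj X.diff X.tot i (-j) := by
  have h1 : annR X.psi (Zc X.diff X.tot (-i) j) (X.tot i (-j)) = Bd X.diff X.tot i (-j) := by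
    have := ann_zc (X := X) (-i) j
    rwa [neg_neg] at this
  have h2 : annR X.psi (Bd X.diff X.tot i j) (X.tot i (-j)) = Zc X.diff X.tot (-i) (-j) := by
    have := ann_bd (X := X) i j
    rwa [tot_neg i (-j)] at this
  have h3 : annR X.psi (Zc X.diff X.tot i j) (X.tot i (-j)) = Bd X.diff X.tot (-i) (-j) := by
    have := ann_zc (X := X) i j
    rwa [tot_neg i (-j)] at this
  unfold NInj
  rw [← h3, ← h2, ← h1, ← annR_sup, sup_comm]
  exact annR_mono h

end Pool.Agent.R942.WM
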