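import Mathlib

/-!
# Rational structures on vector spaces: linear algebra
-/

set_option autoImplicit false

namespace Pool.Agent.R942.WM

open Module

/-- Orthogonal projection to a finite-dimensional subspace on which the form is nondegenerate. -/
lemma exists_proj_lin {K V : Type*} [Field K] [AddCommGroup V] [Module K V]
    (b : V →ₗ[K] V →ₗ[K] K) (R : Submodule K V) [FiniteDimensional K R]
    (h : ∀ r ∈ R, (∀ r' ∈ R, b r r' = 0) → r = 0) :
    ∃ p : V →ₗ[K] V, (∀ x, p x ∈ R) ∧ ∀ x, ∀ r' ∈ R, b (x - p x) r' = 0 := by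
  let T : R →ₗ[K] Dual K R := (R.subtype.dualMap) ∘ₗ b ∘ₗ R.subtype
  have hT : ∀ r r' : R, T r r' = b r r' := fun _ _ => rfl
  have hinj : Function.Injective T := by
    rw [← LinearMap.ker_eq_bot, LinearMap.ker_eq_bot']
    intro r hr
    apply Subtype.ext
    apply h r r.2
    intro r' hr'
    have := LinearMap.congr_fun hr ⟨r', hr'⟩
    rw [hT] at this
    exact this
  have hsurj : Function.Surjective T :=
    (LinearMap.injective_iff_surjective_of_finrank_eq_finrank
      (Subspace.dual_finrank_eq).symm).1 hinj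
  let E : R ≃ₗ[K] Dual K R := LinearEquiv.ofBijective T ⟨hinj, hsurj⟩
  let p : V →ₗ[K] V := R.subtype ∘ₗ E.symm.toLinearMap ∘ₗ (R.subtype.dualMap) ∘ₗ b
  refine ⟨p, fun x => Subtype.coe_prop _, fun x r' hr' => ?_⟩
  have h0 : T (E.symm ((R.subtype.dualMap) (b x))) = (R.subtype.dualMap) (b x) :=
    E.apply_symm_apply _
  have h1 := LinearMap.congr_fun h0 ⟨r', hr'⟩
  rw [hT] at h1
  have h2 : b (p x) r' = b x r' := h1
  rw [map_sub, LinearMap.sub_apply, h2, sub_self]

lemma exists_proj {K V : Type*} [Field K] [AddCommGroup V] [Module K V] (b : V →ₗ[K] V →ₗ[K] K)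
    (R : Submodule K V) [FiniteDimensional K R]
    (h : ∀ r ∈ R, (∀ r' ∈ R, b r r' = 0) → r = 0) (x : V) :
    ∃ r ∈ R, ∀ r' ∈ R, b (x - r) r' = 0 := by
  obtain ⟨p, hp, hp'⟩ := exists_proj_lin b R h
  exact ⟨p x, hp x, hp' x⟩

section Rat

variable {Ω : Type*} [Field Ω] [CharZero Ω]

/-- A rational-linear retraction of `Ω` to `ℚ`. -/
lemma exists_retraction : ∃ φ : Ω →ₗ[ℚ] ℚ, ∀ r : ℚ, φ (r : Ω) = r := by
  obtain ⟨φ, hφ⟩ := LinearMap.exists_leftInverse_of_injective (Algebra.linearMap ℚ Ω)
    (LinearMap.ker_eq_bot.2 (algebraMap ℚ Ω).injective)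
  refine ⟨φ, fun r => ?_⟩
  have := LinearMap.congr_fun hφ r
  simpa using this

variable {V : Type*} [AddCommGroup V] [Module Ω V]

variable (Ω) in
/-- A basis of `Ω` over the rational numbers. -/
noncomputable def bas : Basis (Basis.ofVectorSpaceIndex ℚ Ω) ℚ Ω := Basis.ofVectorSpace ℚ Ω

variable (Ω) in
/-- The index set of the basis. -/
abbrev Ix : Type _ := Basis.ofVectorSpaceIndex ℚ Ω

/-- The combination of the `v i` with the elements of the basis as coefficients. -/
noncomputable def comb (s : Finset (Ix Ω))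
    (v : Ix Ω → V) : V := ∑ i ∈ s, bas Ω i • v i

lemma comb_mono {s t : Finset (Ix Ω)} (h : s ⊆ t) {v : Ix Ω → V} (hv : ∀ i, i ∉ s → v i = 0) :
    comb t v = comb s v := by
  unfold comb
  symm
  apply Finset.sum_subset h
  intro i _ hi
  rw [hv i hi, smul_zero]

/-- If a linear functional takes rational values at the `v i` and zero at the combination, then it
vanishes at the `v i`. -/
lemma comb_ind (T : V →ₗ[Ω] Ω) {s : Finset (Ix Ω)} {v : Ix Ω → V}
    (hr : ∀ i ∈ s, ∃ r : ℚ, T (v i) = r) (h : T (comb s v) = 0) : ∀ i ∈ s, T (v i) = 0 := by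
  classical
  choose! r hr using hr
  have h1 : ∑ i ∈ s, r i • bas Ω i = 0 := by
    rw [← h]
    unfold comb
    rw [map_sum]
    apply Finset.sum_congr rfl
    intro i hi
    rw [map_smul, hr i hi, smul_eq_mul, Algebra.smul_def, mul_comm]
    rfl
  have h2 := (linearIndependent_iff'.1 (bas Ω).linearIndependent) s r h1
  intro i hi
  rw [hr i hi, h2 i hi, Rat.cast_zero]

lemma map_comb {V' : Type*} [AddCommGroup V'] [Module Ω V'] (T : V →ₗ[Ω] V') (s : Finset (Ix Ω))
    (v : Ix Ω → V) : T (comb s v) = comb s fun i => T (v i) := by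
  unfold comb
  rw [map_sum]
  exact Finset.sum_congr rfl fun i _ => map_smul _ _ _

variable [Module ℚ V] [IsScalarTower ℚ Ω V]

/-- Clearing denominators. -/
lemma clear (A : AddSubgroup V) {x : V} (hx : x ∈ Submodule.span ℚ (A : Set V)) :
    ∃ N : ℕ, 0 < N ∧ (N : ℚ) • x ∈ A := by
  induction hx using Submodule.span_induction with
  | mem x hx => exact ⟨1, one_pos, by simpa using hx⟩
  | zero => exact ⟨1, one_pos, by simpa using A.zero_mem⟩
  | add x y _ _ hx hy =>
    obtain ⟨M, hM, hx⟩ := hx
    obtain ⟨N, hN, hy⟩ := hy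
    refine ⟨M * N, Nat.mul_pos hM hN, ?_⟩
    have h1 : ((M * N : ℕ) : ℚ) • (x + y) = (N : ℤ) • ((M : ℚ) • x) + (M : ℤ) • ((N : ℚ) • y) := by
      rw [← Int.cast_smul_eq_zsmul ℚ, ← Int.cast_smul_eq_zsmul ℚ, smul_smul, smul_smul, smul_add]
      push_cast
      rw [mul_comm (N : ℚ)]
    rw [h1]
    exact A.add_mem (A.zsmul_mem hx _) (A.zsmul_mem hy _)
  | smul c x _ hx =>
    obtain ⟨N, hN, hx⟩ := hx
    refine ⟨N * c.den, Nat.mul_pos hN c.pos, ?_⟩
    have h1 : ((N * c.den : ℕ) : ℚ) • (c • x) = c.num • ((N : ℚ) • x) := by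
      rw [← Int.cast_smul_eq_zsmul ℚ, smul_smul, smul_smul]
      congr 1
      push_cast
      have := Rat.mul_den_eq_num c
      rw [← this]
      ring
    rw [h1]
    exact A.zsmul_mem hx _

lemma finite_span (A : AddSubgroup V) (hA : A.FG) :
    FiniteDimensional ℚ (Submodule.span ℚ (A : Set V)) := by
  obtain ⟨S, hS⟩ := hA
  have h1 : Submodule.span ℚ (A : Set V) = Submodule.span ℚ (S : Set V) := by
    apply le_antisymm
    · rw [Submodule.span_le]
      intro x hx
      rw [← hS] at hx
      induction hx using AddSubgroup.closure_induction with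
      | mem x hx => exact Submodule.subset_span hx
      | zero => exact Submodule.zero_mem _
      | add x y _ _ hx hy => exact Submodule.add_mem _ hx hy
      | neg x _ hx => exact Submodule.neg_mem _ hx
    · apply Submodule.span_mono
      intro x hx
      rw [← hS]
      exact AddSubgroup.subset_closure hx
  rw [h1]
  exact FiniteDimensional.span_finset ℚ S

/-- Every element of the span over `Ω` is a combination of rational elements. -/
lemma exists_comb (Q : Submodule ℚ V) {x : V} (hx : x ∈ Submodule.span Ω (Q : Set V)) :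
    ∃ (s : Finset (Ix Ω)) (v : Ix Ω → V), (∀ i, v i ∈ Q) ∧ (∀ i, i ∉ s → v i = 0) ∧
      x = comb s v := by
  classical
  induction hx using Submodule.span_induction with
  | mem x hx =>
    refine ⟨(bas Ω).repr 1 |>.support, fun i => (bas Ω).repr 1 i • x, fun i => Q.smul_mem _ hx,
      fun i hi => ?_, ?_⟩
    · beta_reduce
      rw [Finsupp.notMem_support_iff.1 hi, zero_smul]
    · unfold comb
      have h1 : ∀ i, bas Ω i • (((bas Ω).repr 1 i) • x) = (((bas Ω).repr 1 i) • bas Ω i) • x := by
        intro i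
        rw [smul_assoc, smul_comm]
      rw [Finset.sum_congr rfl (fun i _ => h1 i), ← Finset.sum_smul]
      have h2 := (bas Ω).linearCombination_repr 1
      rw [Finsupp.linearCombination_apply, Finsupp.sum] at h2
      rw [h2, one_smul]
  | zero => exact ⟨∅, fun _ => 0, fun _ => Q.zero_mem, fun _ _ => rfl, by simp [comb]⟩
  | add x y _ _ hx hy =>
    obtain ⟨s, v, hv, hv0, rfl⟩ := hx
    obtain ⟨t, w, hw, hw0, rfl⟩ := hy
    refine ⟨s ∪ t, fun i => v i + w i, fun i => Q.add_mem (hv i) (hw i), fun i hi => ?_, ?_⟩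
    · rw [Finset.mem_union, not_or] at hi
      beta_reduce
      rw [hv0 i hi.1, hw0 i hi.2, add_zero]
    · rw [← comb_mono (Finset.subset_union_left (s₂ := t)) hv0,
        ← comb_mono (Finset.subset_union_right (s₁ := s)) hw0]
      unfold comb
      rw [← Finset.sum_add_distrib]
      exact Finset.sum_congr rfl fun i _ => (smul_add _ _ _).symm
  | smul c x _ hx =>
    obtain ⟨s, v, hv, hv0, rfl⟩ := hx
    let f : Ix Ω → (Ix Ω →₀ ℚ) := fun i => (bas Ω).repr (c * bas Ω i)
    let t : Finset (Ix Ω) := s.biUnion fun i => (f i).support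
    refine ⟨t, fun j => ∑ i ∈ s, f i j • v i, fun j => Q.sum_mem fun i _ => Q.smul_mem _ (hv i),
      fun j hj => ?_, ?_⟩
    · apply Finset.sum_eq_zero
      intro i hi
      have : j ∉ (f i).support := fun h => hj (Finset.mem_biUnion.2 ⟨i, hi, h⟩)
      rw [Finsupp.notMem_support_iff.1 this, zero_smul]
    · unfold comb
      have h1 : ∀ i ∈ s, (c * bas Ω i) • v i = ∑ j ∈ t, bas Ω j • (f i j • v i) := by
        intro i hi
        have h2 := (bas Ω).linearCombination_repr (c * bas Ω i)
        rw [Finsupp.linearCombination_apply, Finsupp.sum] at h2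
        have h3 : ∑ j ∈ t, f i j • bas Ω j = c * bas Ω i := by
          rw [← h2]
          symm
          apply Finset.sum_subset
          · intro j hj
            exact Finset.mem_biUnion.2 ⟨i, hi, hj⟩
          · intro j _ hj
            rw [Finsupp.notMem_support_iff.1 hj, zero_smul]
        rw [← h3, Finset.sum_smul]
        apply Finset.sum_congr rfl
        intro j _
        rw [smul_assoc, smul_comm]
      rw [Finset.smul_sum]
      have h4 : ∀ i ∈ s, c • bas Ω i • v i = ∑ j ∈ t, bas Ω j • (f i j • v i) := by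
        intro i hi
        rw [smul_smul, h1 i hi]
      rw [Finset.sum_congr rfl h4, Finset.sum_comm]
      apply Finset.sum_congr rfl
      intro j _
      rw [Finset.smul_sum]

end Rat

end Pool.Agent.R942.WM
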