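import Pool.Agent.R942.WM.Rat
import Pool.Agent.Y143.Pure

/-!
# The rational structures on the cohomology of the strata
-/

set_option autoImplicit false

namespace Pool.Agent.R942.WM

open Module Pool.Agent.Y143

universe u v

variable {Ω : Type u} [Field Ω] [CharZero Ω] {Γ : Type} {n q : ℕ}

section Inst

variable (X : SpecialFibre.{u, v} Ω Γ n q)

/-- The rational numbers act on the cohomology of the strata. -/
@[reducible] noncomputable def ratH (a : ℕ) : Module ℚ (X.H a) :=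
  Module.compHom _ (algebraMap ℚ Ω)

attribute [local instance] ratH

lemma towH (a : ℕ) : IsScalarTower ℚ Ω (X.H a) := ⟨fun r c x => by
  rw [Algebra.smul_def, mul_smul]; rfl⟩

lemma ratH_smul (a : ℕ) (r : ℚ) (x : X.H a) : r • x = (r : Ω) • x := rfl

end Inst

attribute [local instance] ratH towH

variable {X : SpecialFibre.{u, v} Ω Γ n q}

/-! ### Vanishing -/

lemma eq_zero_of_pair {a : ℕ} {m m' : ℤ} (hm : m + m' = 2 * ((n : ℤ) - a)) {z : X.H a}
    (hz : z ∈ X.gr a m) (h : ∀ y ∈ X.gr a m', X.pair a z y = 0) : z = 0 := by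
  apply X.pair_nondeg
  intro y
  refine X.gr_induction (P := fun y => X.pair a z y = 0) (by simp)
    (fun x y hx hy => by rw [map_add, hx, hy, add_zero]) (fun m'' y hy => ?_) y
  by_cases hmm : m + m'' = 2 * ((n : ℤ) - a)
  · have : m'' = m' := by omega
    subst this
    exact h y hy
  · exact X.pair_gr a m m'' _ _ hz hy hmm

lemma pair_comm0 {a : ℕ} {x y : X.H a} (hx : x ∈ X.gr a 0) : X.pair a y x = X.pair a x y := by
  rw [X.pair_symm a 0 x y hx, zpow_zero, one_mul]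

lemma pair_comm2 {a : ℕ} {x y : X.H a} (hx : x ∈ X.gr a 2) : X.pair a y x = X.pair a x y := by
  rw [X.pair_symm a 2 x y hx]
  norm_num

lemma lef_pow_gr {a : ℕ} {m : ℤ} {x : X.H a} (hx : x ∈ X.gr a m) (s : ℕ) :
    (X.lef a ^ s) x ∈ X.gr a (m + 2 * s) := by
  induction s with
  | zero => simpa using hx
  | succ s ih =>
    rw [pow_succ', Module.End.mul_apply]
    have := X.lef_gr a _ _ ih
    rwa [show m + 2 * (s : ℤ) + 2 = m + 2 * ((s + 1 : ℕ) : ℤ) by push_cast; ring] at this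

lemma lef_pow_pair (a s : ℕ) (x y : X.H a) :
    X.pair a ((X.lef a ^ s) x) y = X.pair a x ((X.lef a ^ s) y) := by
  induction s generalizing x y with
  | zero => rfl
  | succ s ih =>
    rw [pow_succ', Module.End.mul_apply, X.lef_pair, ih, ← Module.End.mul_apply, ← pow_succ,
      pow_succ']

lemma res_lef_pow (a s : ℕ) (x : X.H a) :
    X.res a ((X.lef a ^ s) x) = (X.lef (a + 1) ^ s) (X.res a x) := by
  induction s generalizing x with
  | zero => rfl
  | succ s ih =>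
    rw [pow_succ, Module.End.mul_apply, ih, X.res_lef, ← Module.End.mul_apply, ← pow_succ]

lemma gys_lef_pow (a s : ℕ) (x : X.H (a + 1)) :
    X.gys a ((X.lef (a + 1) ^ s) x) = (X.lef a ^ s) (X.gys a x) := by
  induction s generalizing x with
  | zero => rfl
  | succ s ih =>
    rw [pow_succ, Module.End.mul_apply, ih, X.gys_lef, ← Module.End.mul_apply, ← pow_succ]

lemma lef_pow_lef (a s : ℕ) (x : X.H a) :
    (X.lef a ^ s) (X.lef a x) = (X.lef a ^ (s + 1)) x := by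
  rw [← Module.End.mul_apply, ← pow_succ]

lemma lef_lef_pow (a s : ℕ) (x : X.H a) :
    X.lef a ((X.lef a ^ s) x) = (X.lef a ^ (s + 1)) x := by
  rw [← Module.End.mul_apply, ← pow_succ']

lemma gys_res (a : ℕ) (x : X.H (a + 1)) :
    X.gys (a + 1) (X.res (a + 1) x) = - X.res a (X.gys a x) := by
  rw [eq_neg_iff_add_eq_zero, add_comm (X.gys (a + 1) _)]
  exact X.res_gys a x

lemma res_gys' (a : ℕ) (x : X.H (a + 1)) :
    X.res a (X.gys a x) = - X.gys (a + 1) (X.res (a + 1) x) := by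
  rw [eq_neg_iff_add_eq_zero]
  exact X.res_gys a x

/-! ### Rational structures -/

variable (A : DivisorClasses X)

/-- Rational combinations of the classes of components. -/
noncomputable def Q0 (a : ℕ) : Submodule ℚ (X.H a) := Submodule.span ℚ (A.A0 a : Set (X.H a))

/-- Rational combinations of the classes of divisors. -/
noncomputable def Q1 (a : ℕ) : Submodule ℚ (X.H a) := Submodule.span ℚ (A.A1 a : Set (X.H a))

instance finQ0 (a : ℕ) : FiniteDimensional ℚ (Q0 A a) := finite_span _ (A.fg0 a)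

instance finQ1 (a : ℕ) : FiniteDimensional ℚ (Q1 A a) := finite_span _ (A.fg1 a)

lemma span_le_gr {a : ℕ} {m : ℤ} {S : AddSubgroup (X.H a)} (h : ∀ x ∈ S, x ∈ X.gr a m)
    {x : X.H a} (hx : x ∈ Submodule.span ℚ (S : Set (X.H a))) : x ∈ X.gr a m := by
  induction hx using Submodule.span_induction with
  | mem x hx => exact h x hx
  | zero => exact Submodule.zero_mem _
  | add x y _ _ hx hy => exact Submodule.add_mem _ hx hy
  | smul r x _ hx => exact Submodule.smul_mem _ (r : Ω) hx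

lemma span_map {a b : ℕ} (f : X.H a →ₗ[Ω] X.H b) {S : AddSubgroup (X.H a)}
    {S' : AddSubgroup (X.H b)} (h : ∀ x ∈ S, f x ∈ S') {x : X.H a}
    (hx : x ∈ Submodule.span ℚ (S : Set (X.H a))) :
    f x ∈ Submodule.span ℚ (S' : Set (X.H b)) := by
  induction hx using Submodule.span_induction with
  | mem x hx => exact Submodule.subset_span (h x hx)
  | zero => rw [map_zero]; exact Submodule.zero_mem _
  | add x y _ _ hx hy => rw [map_add]; exact Submodule.add_mem _ hx hy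
  | smul r x _ hx =>
    rw [ratH_smul, map_smul, ← ratH_smul]
    exact Submodule.smul_mem _ _ hx

lemma span_rat {a : ℕ} (f : X.H a →ₗ[Ω] Ω) {S : AddSubgroup (X.H a)}
    (h : ∀ x ∈ S, ∃ r : ℚ, f x = r) {x : X.H a}
    (hx : x ∈ Submodule.span ℚ (S : Set (X.H a))) : ∃ r : ℚ, f x = r := by
  induction hx using Submodule.span_induction with
  | mem x hx => exact h x hx
  | zero => exact ⟨0, by simp⟩
  | add x y _ _ hx hy =>
    obtain ⟨r, hr⟩ := hx
    obtain ⟨s, hs⟩ := hy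
    exact ⟨r + s, by rw [map_add, hr, hs]; push_cast; rfl⟩
  | smul c x _ hx =>
    obtain ⟨r, hr⟩ := hx
    exact ⟨c * r, by rw [ratH_smul, map_smul, hr, smul_eq_mul]; push_cast; rfl⟩

variable {A}

lemma Q0_gr {a : ℕ} {x : X.H a} (hx : x ∈ Q0 A a) : x ∈ X.gr a 0 := span_le_gr (A.A0_le a) hx

lemma Q1_gr {a : ℕ} {x : X.H a} (hx : x ∈ Q1 A a) : x ∈ X.gr a 2 := span_le_gr (A.A1_le a) hx

lemma res_Q0 {a : ℕ} {x : X.H a} (hx : x ∈ Q0 A a) : X.res a x ∈ Q0 A (a + 1) :=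
  span_map _ (A.res_A0 a) hx

lemma res_Q1 {a : ℕ} {x : X.H a} (hx : x ∈ Q1 A a) : X.res a x ∈ Q1 A (a + 1) :=
  span_map _ (A.res_A1 a) hx

lemma gys_Q0 {a : ℕ} {x : X.H (a + 1)} (hx : x ∈ Q0 A (a + 1)) : X.gys a x ∈ Q1 A a :=
  span_map _ (A.gys_A0 a) hx

lemma lef_Q0 {a : ℕ} {x : X.H a} (hx : x ∈ Q0 A a) : X.lef a x ∈ Q1 A a :=
  span_map _ (A.lef_A0 a) hx

lemma rat_pair {a : ℕ} (s : ℕ) {S S' : AddSubgroup (X.H a)}
    (h : ∀ x ∈ S, ∀ y ∈ S', ∃ k : ℤ, X.pair a x ((X.lef a ^ s) y) = k) {x y : X.H a}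
    (hx : x ∈ Submodule.span ℚ (S : Set (X.H a)))
    (hy : y ∈ Submodule.span ℚ (S' : Set (X.H a))) :
    ∃ r : ℚ, X.pair a x ((X.lef a ^ s) y) = r := by
  have h1 : ∀ x ∈ S, ∀ y ∈ Submodule.span ℚ (S' : Set (X.H a)), ∃ r : ℚ,
      X.pair a x ((X.lef a ^ s) y) = r := by
    intro x hx y hy
    refine span_rat ((X.pair a x) ∘ₗ (X.lef a ^ s)) (fun y hy => ?_) hy
    obtain ⟨k, hk⟩ := h x hx y hy
    exact ⟨k, by rw [LinearMap.comp_apply, hk]; push_cast; rfl⟩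
  exact span_rat ((X.pair a).flip ((X.lef a ^ s) y)) (fun x hx => h1 x hx y hy) hx

lemma rat0 {a D : ℕ} (hD : n - a = D) {x y : X.H a} (hx : x ∈ Q0 A a) (hy : y ∈ Q0 A a) :
    ∃ r : ℚ, X.pair a x ((X.lef a ^ D) y) = r := by
  subst hD
  exact rat_pair _ (A.int0 a) hx hy

lemma rat1 {a e : ℕ} (he : n - a - 2 = e) {x y : X.H a} (hx : x ∈ Q1 A a) (hy : y ∈ Q1 A a) :
    ∃ r : ℚ, X.pair a x ((X.lef a ^ e) y) = r := by
  subst he
  exact rat_pair _ (A.int1 a) hx hy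

lemma pair_nat_smul {a : ℕ} (s N : ℕ) (x : X.H a) :
    X.pair a (((N : ℕ) : ℚ) • x) ((X.lef a ^ s) (((N : ℕ) : ℚ) • x)) =
      (N : Ω) ^ 2 * X.pair a x ((X.lef a ^ s) x) := by
  rw [ratH_smul]
  simp only [map_smul, LinearMap.smul_apply, smul_eq_mul]
  push_cast
  ring

lemma nat_smul_ne {a : ℕ} {N : ℕ} (hN : 0 < N) {x : X.H a} (hx : x ≠ 0) :
    ((N : ℕ) : ℚ) • x ≠ 0 := by
  rw [ratH_smul]
  apply smul_ne_zero _ hx
  push_cast
  exact Nat.cast_ne_zero.2 hN.ne'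

lemma pos0Q {a D : ℕ} (hD : n - a = D) {x : X.H a} (hx : x ∈ Q0 A a) (hx0 : x ≠ 0) :
    ∃ r : ℚ, 0 < r ∧ X.pair a x ((X.lef a ^ D) x) = r := by
  subst hD
  obtain ⟨N, hN, hNx⟩ := clear _ hx
  obtain ⟨k, hk, hk'⟩ := A.pos0 a _ hNx (nat_smul_ne hN hx0)
  rw [pair_nat_smul] at hk'
  have hNΩ : (N : Ω) ^ 2 ≠ 0 := pow_ne_zero _ (Nat.cast_ne_zero.2 hN.ne')
  have hNQ : (0 : ℚ) < (N : ℚ) ^ 2 := pow_pos (Nat.cast_pos.2 hN) _
  refine ⟨(k : ℚ) / (N : ℚ) ^ 2, div_pos (Int.cast_pos.2 hk) hNQ, ?_⟩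
  push_cast
  rw [eq_div_iff hNΩ, mul_comm]
  exact hk'

lemma hodgeQ {a e : ℕ} (he : n - a - 2 = e) {x : X.H a} (hx : x ∈ Q1 A a)
    (hprim : (X.lef a ^ (n - a - 1)) x = 0) (hx0 : x ≠ 0) :
    ∃ r : ℚ, r < 0 ∧ X.pair a x ((X.lef a ^ e) x) = r := by
  subst he
  obtain ⟨N, hN, hNx⟩ := clear _ hx
  obtain ⟨k, hk, hk'⟩ := A.hodge_index a _ hNx
    (by rw [ratH_smul, map_smul, hprim, smul_zero]) (nat_smul_ne hN hx0)
  rw [pair_nat_smul] at hk'
  have hNΩ : (N : Ω) ^ 2 ≠ 0 := pow_ne_zero _ (Nat.cast_ne_zero.2 hN.ne')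
  have hNQ : (0 : ℚ) < (N : ℚ) ^ 2 := pow_pos (Nat.cast_pos.2 hN) _
  refine ⟨(k : ℚ) / (N : ℚ) ^ 2, div_neg_of_neg_of_pos (Int.cast_lt_zero.2 hk) hNQ, ?_⟩
  push_cast
  rw [eq_div_iff hNΩ, mul_comm]
  exact hk'

lemma eq_zero_of_pos {a D : ℕ} (hD : n - a = D) {x : X.H a} (hx : x ∈ Q0 A a)
    (h : X.pair a x ((X.lef a ^ D) x) = 0) : x = 0 := by
  by_contra hx0
  obtain ⟨r, hr, hr'⟩ := pos0Q hD hx hx0
  rw [h] at hr'
  have : r = 0 := by exact_mod_cast hr'.symm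
  exact hr.ne' this

lemma eq_zero_of_hodge {a e : ℕ} (he : n - a - 2 = e) {x : X.H a} (hx : x ∈ Q1 A a)
    (hprim : (X.lef a ^ (n - a - 1)) x = 0) (h : X.pair a x ((X.lef a ^ e) x) = 0) : x = 0 := by
  by_contra hx0
  obtain ⟨r, hr, hr'⟩ := hodgeQ he hx hprim hx0
  rw [h] at hr'
  have : r = 0 := by exact_mod_cast hr'.symm
  exact hr.ne this

/-- Every class of degree `0` is a combination of rational classes. -/
lemma gr_zero_comb {a : ℕ} {x : X.H a} (hx : x ∈ X.gr a 0) :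
    ∃ (s : Finset (Ix Ω)) (v : Ix Ω → X.H a), (∀ i, v i ∈ Q0 A a) ∧ (∀ i, i ∉ s → v i = 0) ∧
      x = comb s v := by
  apply exists_comb (Q0 A a)
  exact Submodule.span_mono Submodule.subset_span (A.span_A0 a hx)

/-- A class of degree `2` in the span of the divisor classes is a combination of rational
classes. -/
lemma gr_two_comb {a : ℕ} {x : X.H a} (hx : x ∈ Submodule.span Ω (A.A1 a : Set (X.H a))) :
    ∃ (s : Finset (Ix Ω)) (v : Ix Ω → X.H a), (∀ i, v i ∈ Q1 A a) ∧ (∀ i, i ∉ s → v i = 0) ∧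
      x = comb s v := by
  apply exists_comb (Q1 A a)
  exact Submodule.span_mono Submodule.subset_span hx

/-- Orthogonality to the classes of the components implies orthogonality to `gr a 0`. -/
lemma pair_zero_of_Q0 {a : ℕ} (f : X.H a →ₗ[Ω] Ω) (h : ∀ y ∈ Q0 A a, f y = 0) {y : X.H a}
    (hy : y ∈ X.gr a 0) : f y = 0 := by
  obtain ⟨s, v, hv, -, rfl⟩ := gr_zero_comb (A := A) hy
  rw [map_comb]
  unfold comb
  apply Finset.sum_eq_zero
  intro i _
  beta_reduce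
  rw [h _ (hv i), smul_zero]

end Pool.Agent.R942.WM
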